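import Pool.Agent.P.MP_d66c6d_pr.G.Defs

/-! From the intensity to the parameter `κ`. -/

namespace Pool.Agent.P.MP_d66c6d_pr

open MeasureTheory ProbabilityTheory Set Metric Filter Topology
open scoped ENNReal

/-- The intensity as a real function of `κ`. -/
noncomputable def cc (κ : ℝ) : ℝ := (3 * κ - 8) * (6 - κ) / (4 * κ)

theorem cc_strictMono : StrictMonoOn cc (Icc (8 / 3) 4) := by
  intro x hx y hy h
  have x0 : 0 < x := by linarith [hx.1]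
  have y0 : 0 < y := by linarith [hy.1]
  have hxy : x * y < 16 := by nlinarith [hx.2, hy.2]
  unfold cc
  rw [div_lt_div_iff₀ (by positivity) (by positivity)]
  nlinarith [mul_pos (sub_pos.2 h) (sub_pos.2 hxy)]

theorem cc_cont : ContinuousOn cc (Icc (8 / 3) 4) :=
  ContinuousOn.div (by fun_prop) (by fun_prop) fun x hx => by linarith [hx.1]

theorem cc_left : cc (8 / 3) = 0 := by norm_num [cc]

theorem cc_right : cc 4 = 1 / 2 := by norm_num [cc]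

theorem cc_maps : MapsTo cc (Ioo (8 / 3) 4) (Ioo 0 (1 / 2)) := fun x hx =>
  ⟨cc_left ▸ cc_strictMono ⟨le_rfl, by norm_num⟩ (Ioo_subset_Icc_self hx) hx.1,
    cc_right ▸ cc_strictMono (Ioo_subset_Icc_self hx) ⟨by norm_num, le_rfl⟩ hx.2⟩

theorem cc_surj : ∀ c ∈ Ioo (0 : ℝ) (1 / 2), ∃ κ ∈ Ioo (8 / 3 : ℝ) 4, cc κ = c := fun c hc =>
  intermediate_value_Ioo (by norm_num) cc_cont (by rwa [cc_left, cc_right])

/-- The three clauses in terms of `κ` from the three clauses in terms of the intensity. -/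
theorem of_levels {ν : Measure Br}
    (h : ∀ Θ : ℝ → ℝ, AllL ν Θ → ContinuousOn Θ (Ioo 0 (1 / 2)) ∧
      StrictMonoOn Θ (Ioo 0 (1 / 2)) ∧ Tendsto Θ (𝓝[>] 0) (𝓝 1))
    (Ω : ℝ → Type) [∀ κ, MeasurableSpace (Ω κ)]
    [∀ κ, StandardBorelSpace (Ω κ)] (P : ∀ κ, Measure (Ω κ)) (Γ : ∀ κ, Ω κ → Set (Set ℂ))
    (θ : ℝ → ℝ) (hΓ : ∀ κ ∈ Ioo (8 / 3 : ℝ) 4, IsCLE ν κ (P κ) (Γ κ))
    (hθ : ∀ κ ∈ Ioo (8 / 3 : ℝ) 4, IsDistExp (P κ) (fun ω => firstCarpet (Γ κ ω)) (θ κ)) :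
    ContinuousOn θ (Ioo (8 / 3) 4) ∧ StrictMonoOn θ (Ioo (8 / 3) 4) ∧
      Tendsto θ (𝓝[>] (8 / 3)) (𝓝 1) := by
  choose! k hk hk' using cc_surj
  obtain ⟨h1, h2, h3⟩ := h (fun c => θ (k c)) fun c hc =>
    ⟨Ω (k c), inferInstance, inferInstance, P (k c), Γ (k c), k c,
      congrArg ENNReal.ofReal (hk' c hc), hΓ _ (hk c hc), hθ _ (hk c hc)⟩
  have e : ∀ κ ∈ Ioo (8 / 3 : ℝ) 4, θ κ = θ (k (cc κ)) := fun κ hκ => by
    rw [cc_strictMono.injOn (Ioo_subset_Icc_self (hk _ (cc_maps hκ))) (Ioo_subset_Icc_self hκ)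
      (hk' _ (cc_maps hκ))]
  have hm : Ioo (8 / 3 : ℝ) 4 ∈ 𝓝[>] (8 / 3 : ℝ) := Ioo_mem_nhdsGT (by norm_num)
  refine ⟨(h1.comp (cc_cont.mono Ioo_subset_Icc_self) cc_maps).congr e, fun x hx y hy hxy => ?_,
    Tendsto.congr' (mem_of_superset hm fun κ hκ => (e κ hκ).symm) (h3.comp ?_)⟩
  · rw [e x hx, e y hy]
    exact h2 (cc_maps hx) (cc_maps hy)
      (cc_strictMono (Ioo_subset_Icc_self hx) (Ioo_subset_Icc_self hy) hxy)
  · refine tendsto_nhdsWithin_iff.2 ⟨?_, mem_of_superset hm fun κ hκ => (cc_maps hκ).1⟩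
    have := (cc_cont (8 / 3) ⟨le_rfl, by norm_num⟩).tendsto
    rw [cc_left] at this
    exact this.mono_left (nhdsWithin_le_of_mem (mem_of_superset hm Ioo_subset_Icc_self))

/-- Continuity of a monotone function from the two one-sided estimates. -/
theorem cont_of_sides {Θ : ℝ → ℝ} {a b : ℝ} (hS : StrictMonoOn Θ (Ioo a b))
    (hL : ∀ c ∈ Ioo a b, ∀ d > (0 : ℝ), ∀ᶠ c' in 𝓝[<] c, Θ c - d ≤ Θ c')
    (hR : ∀ c ∈ Ioo a b, ∀ d > (0 : ℝ), ∀ᶠ c' in 𝓝[>] c, Θ c' ≤ Θ c + d) :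
    ContinuousOn Θ (Ioo a b) := by
  refine fun c hc => ContinuousAt.continuousWithinAt
    (continuousAt_iff_continuous_left'_right'.2 ⟨?_, ?_⟩) <;>
    refine Metric.tendsto_nhds.2 fun d hd => ?_
  · filter_upwards [hL c hc _ (half_pos hd), Ioo_mem_nhdsLT hc.1] with x h1 h2
    have := hS ⟨h2.1, h2.2.trans hc.2⟩ hc h2.2
    rw [Real.dist_eq, abs_lt]
    constructor <;> linarith
  · filter_upwards [hR c hc _ (half_pos hd), Ioo_mem_nhdsGT hc.2] with x h1 h2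
    have := hS hc ⟨hc.1.trans h2.1, h2.2⟩ h2.1
    rw [Real.dist_eq, abs_lt]
    constructor <;> linarith

end Pool.Agent.P.MP_d66c6d_pr
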