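import Pool.Agent.P.MP_d66c6d_pr.F.Enum
import Pool.Agent.P.MP_d66c6d_pr.F.Rch
import Pool.Agent.P.MP_d66c6d_pr.F.Ppf
import Pool.Agent.P.MP_d66c6d_pr.F.Ppe
import Pool.Agent.P.MP_d66c6d_pr.F.Ppo
import Pool.Agent.P.MP_d66c6d_pr.F.Joint
import Pool.Agent.P.MP_d66c6d_pr.N.Jmn
import Pool.Agent.P.MP_d66c6d_pr.T.Fill
import Pool.Agent.P.MP_d66c6d_pr.J.Hulm
import Pool.Agent.P.MP_d66c6d_pr.F.Aemap
import Pool.Agent.P.MP_d66c6d_pr.B.Gu
import Pool.Agent.P.MP_d66c6d_pr.B.Bern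
import Pool.Agent.P.MP_d66c6d_pr.B.Rev
import Pool.Agent.P.MP_d66c6d_pr.F.Muk
import Pool.Agent.P.MP_d66c6d_pr.S.Jn
import Pool.Agent.P.MP_d66c6d_pr.S.Blob
import Pool.Agent.P.MP_d66c6d_pr.N.Dec
import Pool.Agent.P.MP_d66c6d_pr.L.Lva
import Pool.Agent.P.MP_d66c6d_pr.L.Lvb
import Pool.Agent.P.MP_d66c6d_pr.N.Exm
import Pool.Agent.P.MP_d66c6d_pr.F.Exch
import Pool.Agent.P.MP_d66c6d_pr.N.Surk
import Pool.Agent.P.MP_d66c6d_pr.N.Mono
import Pool.Agent.P.MP_d66c6d_pr.N.Pos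
import Pool.Agent.P.MP_d66c6d_pr.C.Conf
import Pool.Agent.P.MP_d66c6d_pr.N.Glue
import Pool.Agent.P.MP_d66c6d_pr.B.Gm
import Pool.Agent.P.MP_d66c6d_pr.B.Tri
import Pool.Agent.P.MP_d66c6d_pr.B.Split
import Pool.Agent.P.MP_d66c6d_pr.B.Cut
import Pool.Agent.P.MP_d66c6d_pr.B.Shift
import Pool.Agent.P.MP_d66c6d_pr.B.Loop
import Pool.Agent.P.MP_d66c6d_pr.B.Mark
import Pool.Agent.P.MP_d66c6d_pr.C.Occ
import Pool.Agent.P.MP_d66c6d_pr.C.Mf
import Pool.Agent.P.MP_d66c6d_pr.B.Bm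
import Pool.Agent.P.MP_d66c6d_pr.C.Kk
import Pool.Agent.P.MP_d66c6d_pr.C.Fin
import Pool.Agent.P.MP_d66c6d_pr.C.Dya
import Pool.Agent.P.MP_d66c6d_pr.C.Dyn
import Pool.Agent.P.MP_d66c6d_pr.C.Gen
import Pool.Agent.P.MP_d66c6d_pr.C.Mom
import Pool.Agent.P.MP_d66c6d_pr.C.Mu
import Pool.Agent.P.MP_d66c6d_pr.C.Cgz
import Pool.Agent.P.MP_d66c6d_pr.C.Dup
import Pool.Agent.P.MP_d66c6d_pr.C.Duh
import Pool.Agent.P.MP_d66c6d_pr.C.Cgq
import Pool.Agent.P.MP_d66c6d_pr.C.Cm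
import Pool.Agent.P.MP_d66c6d_pr.C.Cz
import Pool.Agent.P.MP_d66c6d_pr.C.Cp
import Pool.Agent.P.MP_d66c6d_pr.C.Ci
import Pool.Agent.P.MP_d66c6d_pr.N.Cik
import Pool.Agent.P.MP_d66c6d_pr.T.Loga
import Pool.Agent.P.MP_d66c6d_pr.T.Eil
import Pool.Agent.P.MP_d66c6d_pr.T.Logu
import Pool.Agent.P.MP_d66c6d_pr.T.Uni
import Pool.Agent.P.MP_d66c6d_pr.T.Img
import Pool.Agent.P.MP_d66c6d_pr.T.Rmt
import Pool.Agent.P.MP_d66c6d_pr.N.Ims
import Pool.Agent.P.MP_d66c6d_pr.N.Jmp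
import Pool.Agent.P.MP_d66c6d_pr.N.Ntj
import Pool.Agent.P.MP_d66c6d_pr.N.Nc
import Pool.Agent.P.MP_d66c6d_pr.N.Small
import Pool.Agent.P.MP_d66c6d_pr.N.Nld
import Pool.Agent.P.MP_d66c6d_pr.N.Nl
import Pool.Agent.P.MP_d66c6d_pr.N.Bmk
import Pool.Agent.P.MP_d66c6d_pr.N.Enc
import Pool.Agent.P.MP_d66c6d_pr.U.Circ
import Pool.Agent.P.MP_d66c6d_pr.N.Start
import Pool.Agent.P.MP_d66c6d_pr.N.Hitb
import Pool.Agent.P.MP_d66c6d_pr.N.Cirm
import Pool.Agent.P.MP_d66c6d_pr.N.Hitg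
import Pool.Agent.P.MP_d66c6d_pr.N.Exd
import Pool.Agent.P.MP_d66c6d_pr.L.Exl
import Pool.Agent.P.MP_d66c6d_pr.L.Rc
import Pool.Agent.P.MP_d66c6d_pr.L.Hqd
import Pool.Agent.P.MP_d66c6d_pr.L.Hql
import Pool.Agent.P.MP_d66c6d_pr.L.Hqm
import Pool.Agent.P.MP_d66c6d_pr.L.Hqb
import Pool.Agent.P.MP_d66c6d_pr.L.Hitl
import Pool.Agent.P.MP_d66c6d_pr.J.Layy
import Pool.Agent.P.MP_d66c6d_pr.J.Pair
import Pool.Agent.P.MP_d66c6d_pr.U.Ev
import Pool.Agent.P.MP_d66c6d_pr.J.Nk1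
import Pool.Agent.P.MP_d66c6d_pr.U.Markr
import Pool.Agent.P.MP_d66c6d_pr.J.Mb
import Pool.Agent.P.MP_d66c6d_pr.J.Nkm
import Pool.Agent.P.MP_d66c6d_pr.J.Nka
import Pool.Agent.P.MP_d66c6d_pr.J.Nk2
import Pool.Agent.P.MP_d66c6d_pr.J.Nkb
import Pool.Agent.P.MP_d66c6d_pr.J.Nkx
import Pool.Agent.P.MP_d66c6d_pr.J.Bmc
import Pool.Agent.P.MP_d66c6d_pr.J.Rec
import Pool.Agent.P.MP_d66c6d_pr.J.Esc
import Pool.Agent.P.MP_d66c6d_pr.J.Ock
import Pool.Agent.P.MP_d66c6d_pr.J.Nks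
import Pool.Agent.P.MP_d66c6d_pr.J.Osc
import Pool.Agent.P.MP_d66c6d_pr.J.Hold
import Pool.Agent.P.MP_d66c6d_pr.J.Nkt
import Pool.Agent.P.MP_d66c6d_pr.J.Netd
import Pool.Agent.P.MP_d66c6d_pr.J.Top
import Pool.Agent.P.MP_d66c6d_pr.J.Jms
import Pool.Agent.P.MP_d66c6d_pr.J.Neck
import Pool.Agent.P.MP_d66c6d_pr.J.Solid
import Pool.Agent.P.MP_d66c6d_pr.J.Pairk
import Pool.Agent.P.MP_d66c6d_pr.E.Djl
import Pool.Agent.P.MP_d66c6d_pr.E.Lpc
import Pool.Agent.P.MP_d66c6d_pr.E.Lcc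
import Pool.Agent.P.MP_d66c6d_pr.J.Card
import Pool.Agent.P.MP_d66c6d_pr.E.Fimg
import Pool.Agent.P.MP_d66c6d_pr.J.Caru
import Pool.Agent.P.MP_d66c6d_pr.J.Car1
import Pool.Agent.P.MP_d66c6d_pr.J.Arc
import Pool.Agent.P.MP_d66c6d_pr.J.Car2
import Pool.Agent.P.MP_d66c6d_pr.J.Extm
import Pool.Agent.P.MP_d66c6d_pr.J.Intm
import Pool.Agent.P.MP_d66c6d_pr.J.Schg
import Pool.Agent.P.MP_d66c6d_pr.J.Jdet
import Pool.Agent.P.MP_d66c6d_pr.J.Ufam
import Pool.Agent.P.MP_d66c6d_pr.A.Jor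
import Pool.Agent.P.MP_d66c6d_pr.J.Jall
import Pool.Agent.P.MP_d66c6d_pr.J.Genj
import Pool.Agent.P.MP_d66c6d_pr.S.Zo
import Pool.Agent.P.MP_d66c6d_pr.S.Locj
import Pool.Agent.P.MP_d66c6d_pr.S.Dens
import Pool.Agent.P.MP_d66c6d_pr.F.Trans
import Pool.Agent.P.MP_d66c6d_pr.J.Suby
import Pool.Agent.P.MP_d66c6d_pr.J.Upg
import Pool.Agent.P.MP_d66c6d_pr.A.Bas
import Pool.Agent.P.MP_d66c6d_pr.A.Tree
import Pool.Agent.P.MP_d66c6d_pr.A.Trfo
import Pool.Agent.P.MP_d66c6d_pr.A.Trf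
import Pool.Agent.P.MP_d66c6d_pr.A.Cov
import Pool.Agent.P.MP_d66c6d_pr.A.Xg
import Pool.Agent.P.MP_d66c6d_pr.A.Rat
import Pool.Agent.P.MP_d66c6d_pr.A.Hom
import Pool.Agent.P.MP_d66c6d_pr.A.Dat
import Pool.Agent.P.MP_d66c6d_pr.E.Bli
import Pool.Agent.P.MP_d66c6d_pr.A.Exp
import Pool.Agent.P.MP_d66c6d_pr.E.Ltd
import Pool.Agent.P.MP_d66c6d_pr.S.Subx
import Pool.Agent.P.MP_d66c6d_pr.S.Subq
import Pool.Agent.P.MP_d66c6d_pr.G.Sub
import Pool.Agent.P.MP_d66c6d_pr.L.Layt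
import Pool.Agent.P.MP_d66c6d_pr.G.Lay
import Pool.Agent.P.MP_d66c6d_pr.E.Layn
import Pool.Agent.P.MP_d66c6d_pr.S.Covr
import Pool.Agent.P.MP_d66c6d_pr.E.Fra
import Pool.Agent.P.MP_d66c6d_pr.E.Net
import Pool.Agent.P.MP_d66c6d_pr.E.Frb
import Pool.Agent.P.MP_d66c6d_pr.S.Cova
import Pool.Agent.P.MP_d66c6d_pr.E.Frc
import Pool.Agent.P.MP_d66c6d_pr.E.Blm
import Pool.Agent.P.MP_d66c6d_pr.E.Lt
import Pool.Agent.P.MP_d66c6d_pr.S.Walk
import Pool.Agent.P.MP_d66c6d_pr.S.Ani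
import Pool.Agent.P.MP_d66c6d_pr.S.Cells
import Pool.Agent.P.MP_d66c6d_pr.S.Peia
import Pool.Agent.P.MP_d66c6d_pr.S.Gain
import Pool.Agent.P.MP_d66c6d_pr.E.Blc
import Pool.Agent.P.MP_d66c6d_pr.E.Bump
import Pool.Agent.P.MP_d66c6d_pr.E.Pel
import Pool.Agent.P.MP_d66c6d_pr.S.Lowx
import Pool.Agent.P.MP_d66c6d_pr.E.Lowt
import Pool.Agent.P.MP_d66c6d_pr.F.Ppa
import Pool.Agent.P.MP_d66c6d_pr.E.Left
import Pool.Agent.P.MP_d66c6d_pr.U.Um
import Pool.Agent.P.MP_d66c6d_pr.U.Har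
import Pool.Agent.P.MP_d66c6d_pr.U.Hart
import Pool.Agent.P.MP_d66c6d_pr.U.Scal
import Pool.Agent.P.MP_d66c6d_pr.U.Klow
import Pool.Agent.P.MP_d66c6d_pr.U.Hit
import Pool.Agent.P.MP_d66c6d_pr.U.Rho
import Pool.Agent.P.MP_d66c6d_pr.U.Rj
import Pool.Agent.P.MP_d66c6d_pr.U.Supt
import Pool.Agent.P.MP_d66c6d_pr.U.Wta
import Pool.Agent.P.MP_d66c6d_pr.U.Wtb
import Pool.Agent.P.MP_d66c6d_pr.U.Wtc
import Pool.Agent.P.MP_d66c6d_pr.U.Rel
import Pool.Agent.P.MP_d66c6d_pr.U.Single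
import Pool.Agent.P.MP_d66c6d_pr.U.Dlooph
import Pool.Agent.P.MP_d66c6d_pr.U.Onek
import Pool.Agent.P.MP_d66c6d_pr.U.Dqf
import Pool.Agent.P.MP_d66c6d_pr.U.Pac
import Pool.Agent.P.MP_d66c6d_pr.G.Ucs
import Pool.Agent.P.MP_d66c6d_pr.S.Badm
import Pool.Agent.P.MP_d66c6d_pr.S.Wlk
import Pool.Agent.P.MP_d66c6d_pr.S.Pei
import Pool.Agent.P.MP_d66c6d_pr.G.Th1
import Pool.Agent.P.MP_d66c6d_pr.H.Hol
import Pool.Agent.P.MP_d66c6d_pr.M.Trx
import Pool.Agent.P.MP_d66c6d_pr.M.Ls3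
import Pool.Agent.P.MP_d66c6d_pr.H.Att
import Pool.Agent.P.MP_d66c6d_pr.H.Oba
import Pool.Agent.P.MP_d66c6d_pr.H.Rad
import Pool.Agent.P.MP_d66c6d_pr.H.Obs
import Pool.Agent.P.MP_d66c6d_pr.R.Rjan
import Pool.Agent.P.MP_d66c6d_pr.D.Jan2
import Pool.Agent.P.MP_d66c6d_pr.H.Lnk
import Pool.Agent.P.MP_d66c6d_pr.H.Apru
import Pool.Agent.P.MP_d66c6d_pr.D.Dmon
import Pool.Agent.P.MP_d66c6d_pr.H.Aprl
import Pool.Agent.P.MP_d66c6d_pr.D.Czn
import Pool.Agent.P.MP_d66c6d_pr.D.Dmea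
import Pool.Agent.P.MP_d66c6d_pr.D.Dmez
import Pool.Agent.P.MP_d66c6d_pr.M.Gul
import Pool.Agent.P.MP_d66c6d_pr.R.Rpcs
import Pool.Agent.P.MP_d66c6d_pr.R.Rclo
import Pool.Agent.P.MP_d66c6d_pr.R.Rfit
import Pool.Agent.P.MP_d66c6d_pr.R.Rlc
import Pool.Agent.P.MP_d66c6d_pr.R.Rdtr
import Pool.Agent.P.MP_d66c6d_pr.R.Rpha
import Pool.Agent.P.MP_d66c6d_pr.R.Rphb
import Pool.Agent.P.MP_d66c6d_pr.R.Rsec
import Pool.Agent.P.MP_d66c6d_pr.R.Rdet
import Pool.Agent.P.MP_d66c6d_pr.R.Rcmp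
import Pool.Agent.P.MP_d66c6d_pr.R.Rcore
import Pool.Agent.P.MP_d66c6d_pr.R.Rloop
import Pool.Agent.P.MP_d66c6d_pr.R.Rone
import Pool.Agent.P.MP_d66c6d_pr.R.Rmul
import Pool.Agent.P.MP_d66c6d_pr.R.Rins
import Pool.Agent.P.MP_d66c6d_pr.R.Rroot
import Pool.Agent.P.MP_d66c6d_pr.R.Rnul
import Pool.Agent.P.MP_d66c6d_pr.M.Rzs
import Pool.Agent.P.MP_d66c6d_pr.D.Dloc
import Pool.Agent.P.MP_d66c6d_pr.D.Dmeb
import Pool.Agent.P.MP_d66c6d_pr.M.Far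
import Pool.Agent.P.MP_d66c6d_pr.M.Rare
import Pool.Agent.P.MP_d66c6d_pr.M.Tigh
import Pool.Agent.P.MP_d66c6d_pr.D.Dsim
import Pool.Agent.P.MP_d66c6d_pr.M.Rtr
import Pool.Agent.P.MP_d66c6d_pr.D.Blk
import Pool.Agent.P.MP_d66c6d_pr.D.Zone
import Pool.Agent.P.MP_d66c6d_pr.D.Ztwo
import Pool.Agent.P.MP_d66c6d_pr.D.Grid
import Pool.Agent.P.MP_d66c6d_pr.M.Zrc
import Pool.Agent.P.MP_d66c6d_pr.M.Taiw
import Pool.Agent.P.MP_d66c6d_pr.D.Zthr
import Pool.Agent.P.MP_d66c6d_pr.M.Tail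
import Pool.Agent.P.MP_d66c6d_pr.M.Lown
import Pool.Agent.P.MP_d66c6d_pr.H.Cont
import Pool.Agent.P.MP_d66c6d_pr.H.Bbg
import Pool.Agent.P.MP_d66c6d_pr.M.Ghu
import Pool.Agent.P.MP_d66c6d_pr.M.Hug
import Pool.Agent.P.MP_d66c6d_pr.M.Ppm
import Pool.Agent.P.MP_d66c6d_pr.M.Smp
import Pool.Agent.P.MP_d66c6d_pr.D.Dett
import Pool.Agent.P.MP_d66c6d_pr.M.Base
import Pool.Agent.P.MP_d66c6d_pr.M.Ga
import Pool.Agent.P.MP_d66c6d_pr.M.Gaw
import Pool.Agent.P.MP_d66c6d_pr.D.Zrep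
import Pool.Agent.P.MP_d66c6d_pr.M.Ref
import Pool.Agent.P.MP_d66c6d_pr.M.Mdl
import Pool.Agent.P.MP_d66c6d_pr.M.Upn
import Pool.Agent.P.MP_d66c6d_pr.M.Full
import Pool.Agent.P.MP_d66c6d_pr.M.Right
import Pool.Agent.P.MP_d66c6d_pr.M.Few
import Pool.Agent.P.MP_d66c6d_pr.M.Sta
import Pool.Agent.P.MP_d66c6d_pr.M.Zsm
import Pool.Agent.P.MP_d66c6d_pr.D.Zfiv
import Pool.Agent.P.MP_d66c6d_pr.M.Gone
import Pool.Agent.P.MP_d66c6d_pr.M.Stb
import Pool.Agent.P.MP_d66c6d_pr.D.Sel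
import Pool.Agent.P.MP_d66c6d_pr.D.Zgai
import Pool.Agent.P.MP_d66c6d_pr.M.Std
import Pool.Agent.P.MP_d66c6d_pr.M.Cheb
import Pool.Agent.P.MP_d66c6d_pr.M.Label
import Pool.Agent.P.MP_d66c6d_pr.M.Step
import Pool.Agent.P.MP_d66c6d_pr.M.Strict
import Pool.Agent.P.MP_d66c6d_pr.A.Lim
import Pool.Agent.P.MP_d66c6d_pr.Z.Par
import Pool.Agent.P.MP_d66c6d_pr.Defs3

/-! Assembly of all the steps of the carpet project. -/

namespace Pool.Agent.P.MP_d66c6d_pr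

theorem all_ENUM : S_ENUM :=
  p_ENUM

theorem all_RCH : S_RCH :=
  p_RCH all_ENUM

theorem all_PPF : S_PPF :=
  p_PPF

theorem all_PPE : S_PPE :=
  p_PPE all_PPF

theorem all_PPO : S_PPO :=
  p_PPO all_PPE

theorem all_JOINT : S_JOINT :=
  p_JOINT all_PPF all_PPE all_PPO all_ENUM

theorem all_JMN : S_JMN :=
  p_JMN all_RCH all_JOINT

theorem all_FILL : S_FILL :=
  p_FILL

theorem all_HULM : S_HULM :=
  p_HULM all_JMN all_JOINT all_FILL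

theorem all_AEMAP : S_AEMAP :=
  p_AEMAP

theorem all_GU : S_GU :=
  p_GU

theorem all_BERN : S_BERN :=
  p_BERN

theorem all_REV : S_REV :=
  p_REV all_GU all_BERN

theorem all_MUK : S_MUK :=
  p_MUK all_PPO all_AEMAP all_REV

theorem all_JN : S_JN :=
  p_JN all_JOINT all_RCH all_PPO all_MUK

theorem all_BLOB : S_BLOB :=
  p_BLOB all_JN

theorem all_DEC : S_DEC :=
  p_DEC all_PPO all_JOINT all_MUK

theorem all_LVA : S_LVA :=
  p_LVA all_PPO all_JOINT all_MUK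

theorem all_LVB : S_LVB :=
  p_LVB all_PPO all_MUK

theorem all_EXM : S_EXM :=
  p_EXM all_JMN all_RCH all_JOINT all_ENUM

theorem all_EXCH : S_EXCH :=
  p_EXCH all_PPE all_PPO all_ENUM all_JOINT

theorem all_SURK : S_SURK :=
  p_SURK all_PPO all_MUK

theorem all_MONO : S_MONO :=
  p_MONO all_PPO all_DEC all_JMN all_MUK

theorem all_POS : S_POS :=
  p_POS all_PPO all_PPE all_DEC all_JMN all_MUK

theorem all_CONF : S_CONF :=
  p_CONF

theorem all_GLUE : S_GLUE :=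
  p_GLUE all_JMN all_EXCH all_CONF

theorem all_GM : S_GM :=
  p_GM

theorem all_TRI : S_TRI :=
  p_TRI all_GU all_BERN all_GM

theorem all_SPLIT : S_SPLIT :=
  p_SPLIT all_TRI

theorem all_CUT : S_CUT :=
  p_CUT

theorem all_SHIFT : S_SHIFT :=
  p_SHIFT all_SPLIT all_CUT

theorem all_LOOP : S_LOOP :=
  p_LOOP all_SHIFT

theorem all_MARK : S_MARK :=
  p_MARK all_SPLIT

theorem all_OCC : S_OCC :=
  p_OCC all_CUT

theorem all_MF : S_MF :=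
  p_MF all_LOOP all_MARK all_OCC all_CUT all_REV

theorem all_BM : S_BM :=
  p_BM all_GM

theorem all_KK : S_KK :=
  p_KK all_SPLIT all_CUT all_REV all_BM all_GM

theorem all_FIN : S_FIN :=
  p_FIN all_KK all_GM

theorem all_DYA : S_DYA :=
  p_DYA all_KK all_BM all_GM all_REV

theorem all_DYN : S_DYN :=
  p_DYN all_KK all_FIN all_DYA

theorem all_GEN : S_GEN :=
  p_GEN all_GM

theorem all_MOM : S_MOM :=
  p_MOM all_DYN all_GEN all_GM

theorem all_MU : S_MU :=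
  p_MU

theorem all_CGZ : S_CGZ :=
  p_CGZ all_MOM all_MU all_CONF all_KK all_FIN

theorem all_DUP : S_DUP :=
  p_DUP all_CUT all_OCC

theorem all_DUH : S_DUH :=
  p_DUH all_DUP all_MARK all_REV

theorem all_CGQ : S_CGQ :=
  p_CGQ all_CGZ all_DUH all_CONF all_KK all_FIN

theorem all_CM : S_CM :=
  p_CM all_MF all_CGQ all_CONF all_KK

theorem all_CZ : S_CZ :=
  p_CZ all_CM all_CONF all_REV

theorem all_CP : S_CP :=
  p_CP all_CZ all_CONF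

theorem all_CI : S_CI :=
  p_CI all_CP all_CONF all_REV

theorem all_CIK : S_CIK :=
  p_CIK all_CI

theorem all_LOGA : S_LOGA :=
  p_LOGA

theorem all_EIL : S_EIL :=
  p_EIL all_LOGA all_FILL

theorem all_LOGU : S_LOGU :=
  p_LOGU all_LOGA all_EIL

theorem all_UNI : S_UNI :=
  p_UNI all_LOGA

theorem all_IMG : S_IMG :=
  p_IMG all_FILL all_UNI

theorem all_RMT : S_RMT :=
  p_RMT all_LOGU all_IMG

theorem all_IMS : S_IMS :=
  p_IMS all_CIK all_RMT all_IMG all_PPO all_DEC all_MUK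

theorem all_JMP : S_JMP :=
  p_JMP all_EXCH all_JMN all_DEC all_SURK all_MONO all_POS all_GLUE all_IMS

theorem all_NTJ : S_NTJ :=
  p_NTJ all_JMP all_MONO all_JMN

theorem all_NC : S_NC :=
  p_NC all_NTJ all_IMS all_RMT all_JMN all_DEC all_CONF

theorem all_SMALL : S_SMALL :=
  p_SMALL all_PPO all_MUK all_JMN all_DEC

theorem all_NLD : S_NLD :=
  p_NLD

theorem all_NL : S_NL :=
  p_NL all_NC all_SMALL all_NLD all_IMG all_DEC all_MONO

theorem all_BMK : S_BMK :=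
  p_BMK all_SPLIT all_BM all_GM all_REV

theorem all_ENC : S_ENC :=
  p_ENC

theorem all_CIRC : S_CIRC :=
  p_CIRC all_LOGA all_CUT

theorem all_START : S_START :=
  p_START all_BMK all_ENC all_GM all_BM all_CUT all_REV all_CIRC

theorem all_HITB : S_HITB :=
  p_HITB all_START all_BMK all_ENC all_CUT all_REV all_BM

theorem all_CIRM : S_CIRM :=
  p_CIRM all_ENC

theorem all_HITG : S_HITG :=
  p_HITG all_HITB all_CIRM all_BMK all_ENC all_CUT all_REV all_MUK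

theorem all_EXD : S_EXD :=
  p_EXD all_EXM all_EXCH all_JMN all_NL all_HITG all_DEC all_MUK all_PPO all_JOINT

theorem all_EXL : S_EXL :=
  p_EXL all_EXD all_EXM all_LVA

theorem all_RC : S_RC :=
  p_RC

theorem all_HQD : S_HQD :=
  p_HQD all_CUT

theorem all_HQL : S_HQL :=
  p_HQL all_HITG all_CIRM all_SPLIT all_CUT

theorem all_HQM : S_HQM :=
  p_HQM all_ENC all_CUT

theorem all_HQB : S_HQB :=
  p_HQB all_HQM all_JMN all_JOINT

theorem all_HITL : S_HITL :=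
  p_HITL all_HQL all_HQB all_JOINT all_PPO all_MUK all_DEC

theorem all_LAYY : S_LAYY :=
  p_LAYY all_BLOB all_JN all_DEC all_LVA all_LVB all_EXL all_RC all_NC all_HQD all_HQL all_HITL
    all_PPO all_MUK all_REV

theorem all_PAIR : S_PAIR :=
  p_PAIR all_PPO all_JOINT

theorem all_EV : S_EV :=
  p_EV all_CUT

theorem all_NK1 : S_NK1 :=
  p_NK1 all_EV

theorem all_MARKR : S_MARKR :=
  p_MARKR all_MARK all_SPLIT all_REV

theorem all_MB : S_MB :=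
  p_MB all_BM

theorem all_NKM : S_NKM :=
  p_NKM all_REV

theorem all_NKA : S_NKA :=
  p_NKA all_MARKR all_MB all_REV all_NKM

theorem all_NK2 : S_NK2 :=
  p_NK2 all_EV

theorem all_NKB : S_NKB :=
  p_NKB all_MARKR all_MB all_NK2 all_NKM all_REV all_EV

theorem all_NKX : S_NKX :=
  p_NKX all_NK1 all_NKA all_NKB all_NKM

theorem all_BMC : S_BMC :=
  p_BMC all_START all_BMK all_ENC

theorem all_REC : S_REC :=
  p_REC all_BMC all_BMK all_GM all_CUT all_BM all_REV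

theorem all_ESC : S_ESC :=
  p_ESC all_REC all_KK all_BMK all_CUT

theorem all_OCK : S_OCK :=
  p_OCK all_BMC all_KK

theorem all_NKS : S_NKS :=
  p_NKS all_ESC all_OCK all_REV

theorem all_OSC : S_OSC :=
  p_OSC all_BMK all_BM all_GM all_CUT all_REV

theorem all_HOLD : S_HOLD :=
  p_HOLD all_OSC all_NKM

theorem all_NKT : S_NKT :=
  p_NKT all_NKX all_NKS all_NKM all_MB all_HOLD all_REV

theorem all_NETD : S_NETD :=
  p_NETD

theorem all_TOP : S_TOP :=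
  p_TOP all_NETD all_FILL all_EIL all_LOGA all_CUT

theorem all_JMS : S_JMS :=
  p_JMS

theorem all_NECK : S_NECK :=
  p_NECK all_NKT all_TOP all_JMS all_NKM all_HOLD all_HITG all_REV all_CUT

theorem all_SOLID : S_SOLID :=
  p_SOLID all_NECK all_JMS all_MARK all_LOOP all_REV all_CUT all_MUK

theorem all_PAIRK : S_PAIRK :=
  p_PAIRK all_PAIR all_SOLID all_HITG all_PPO all_MUK all_DEC all_CUT all_REV

theorem all_DJL : S_DJL :=
  p_DJL all_FILL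

theorem all_LPC : S_LPC :=
  p_LPC

theorem all_LCC : S_LCC :=
  p_LCC all_DJL all_LPC

theorem all_CARD : S_CARD :=
  p_CARD

theorem all_FIMG : S_FIMG :=
  p_FIMG all_FILL all_CONF

theorem all_CARU : S_CARU :=
  p_CARU all_CARD all_FIMG all_EIL all_FILL

theorem all_CAR1 : S_CAR1 :=
  p_CAR1 all_CARU

theorem all_ARC : S_ARC :=
  p_ARC

theorem all_CAR2 : S_CAR2 :=
  p_CAR2 all_ARC all_FIMG all_EIL

theorem all_EXTM : S_EXTM :=
  p_EXTM all_RMT all_IMG all_CAR1 all_CAR2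

theorem all_INTM : S_INTM :=
  p_INTM all_RMT all_CAR1 all_CAR2 all_EIL all_LOGA all_FILL

theorem all_SCHG : S_SCHG :=
  p_SCHG

theorem all_JDET : S_JDET :=
  p_JDET all_LCC all_EXTM all_INTM all_SCHG all_FILL

theorem all_UFAM : S_UFAM :=
  p_UFAM all_FILL

theorem all_JOR : S_JOR :=
  p_JOR

theorem all_JALL : S_JALL :=
  p_JALL all_LAYY all_PAIRK all_JDET all_UFAM all_LVB all_JOR

theorem all_GENJ : S_GENJ :=
  p_GENJ all_HULM all_ENUM all_JALL all_LVB all_DEC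

theorem all_ZO : S_ZO :=
  p_ZO all_JN all_PPO all_MUK

theorem all_LOCJ : S_LOCJ :=
  p_LOCJ

theorem all_DENS : S_DENS :=
  p_DENS all_JN all_ZO all_LOCJ all_PPO all_MUK

theorem all_TRANS : S_TRANS :=
  p_TRANS all_PPE

theorem all_SUBY : S_SUBY :=
  p_SUBY all_DENS all_TRANS all_MUK

theorem all_UPG : S_UPG :=
  p_UPG all_GENJ all_SUBY all_TRANS all_MUK

theorem all_BAS : S_BAS :=
  p_BAS all_JOR

theorem all_TREE : S_TREE :=
  p_TREE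

theorem all_TRFO : S_TRFO :=
  p_TRFO all_TREE

theorem all_TRF : S_TRF :=
  p_TRF all_TRFO all_TRANS all_MUK

theorem all_COV : S_COV :=
  p_COV

theorem all_XG : S_XG :=
  p_XG all_COV

theorem all_RAT : S_RAT :=
  p_RAT all_XG

theorem all_HOM : S_HOM :=
  p_HOM

theorem all_DAT : S_DAT :=
  p_DAT all_BAS all_TRF all_RAT all_HOM all_JOR all_PPO all_MUK

theorem all_BLI : S_BLI :=
  p_BLI

theorem all_EXP : S_EXP :=
  p_EXP

theorem all_LTD : S_LTD :=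
  p_LTD all_BLI all_FIMG all_LPC all_COV all_EXP

theorem all_SUBX : S_SUBX :=
  p_SUBX all_DENS all_TRANS all_MUK

theorem all_SUBQ : S_SUBQ :=
  p_SUBQ all_JN all_PPO all_MUK

theorem all_SUB : S_SUB :=
  p_SUB all_SUBX all_BLOB all_SUBQ all_JN all_MUK all_PPO

theorem all_LAYT : S_LAYT :=
  p_LAYT all_SUB all_SUBX all_DEC all_LVA all_EXL all_RC

theorem all_LAY : S_LAY :=
  p_LAY all_LAYT all_SUBX all_JOR all_NC all_LVA all_LVB all_HQD all_HQL all_HITL all_PPO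
    all_MUK all_REV

theorem all_LAYN : S_LAYN :=
  p_LAYN all_LAY all_JOR all_PPO all_MUK

theorem all_COVR : S_COVR :=
  p_COVR all_FILL

theorem all_FRA : S_FRA :=
  p_FRA all_COVR all_FILL all_EIL

theorem all_NET : S_NET :=
  p_NET all_LOGA

theorem all_FRB : S_FRB :=
  p_FRB all_LCC all_NET all_FILL all_EIL

theorem all_COVA : S_COVA :=
  p_COVA all_LAY all_COVR all_PPO all_MUK all_FILL

theorem all_FRC : S_FRC :=
  p_FRC all_LAYN all_FRA all_FRB all_COVA all_JOR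

theorem all_BLM : S_BLM :=
  p_BLM

theorem all_LT : S_LT :=
  p_LT all_DAT all_LTD all_FRC all_BLM all_IMS all_RMT all_JOR all_LVB all_PPO all_MUK

theorem all_WALK : S_WALK :=
  p_WALK

theorem all_ANI : S_ANI :=
  p_ANI all_WALK

theorem all_CELLS : S_CELLS :=
  p_CELLS

theorem all_PEIA : S_PEIA :=
  p_PEIA all_ANI all_CELLS all_PPO

theorem all_GAIN : S_GAIN :=
  p_GAIN all_CELLS

theorem all_BLC : S_BLC :=
  p_BLC all_BLM all_PPO all_MUK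

theorem all_BUMP : S_BUMP :=
  p_BUMP

theorem all_PEL : S_PEL :=
  p_PEL all_PEIA all_GAIN all_BLM all_BLC all_BUMP all_MUK

theorem all_LOWX : S_LOWX :=
  p_LOWX

theorem all_LOWT : S_LOWT :=
  p_LOWT all_TRF all_BAS all_FRC all_LOWX all_JOR all_PPO all_MUK

theorem all_PPA : S_PPA :=
  p_PPA all_PPF all_PPE all_PPO

theorem all_LEFT : S_LEFT :=
  p_LEFT all_LT all_PEL all_LOWT all_BLM all_PPA all_MUK

theorem all_UM : S_UM :=
  p_UM all_FILL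

theorem all_HAR : S_HAR :=
  p_HAR all_EV all_UM all_MARKR all_REV

theorem all_HART : S_HART :=
  p_HART all_EV all_UM all_HAR all_REV

theorem all_SCAL : S_SCAL :=
  p_SCAL all_UM

theorem all_KLOW : S_KLOW :=
  p_KLOW all_UM all_CIRC all_SCAL all_CUT

theorem all_HIT : S_HIT :=
  p_HIT all_KK all_FIN all_DYN all_GEN all_GM all_BM all_SPLIT all_REV all_CUT

theorem all_RHO : S_RHO :=
  p_RHO all_EV all_UM all_MARKR all_SCAL all_HIT all_KK all_FIN all_BM all_REV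

theorem all_RJ : S_RJ :=
  p_RJ

theorem all_SUPT : S_SUPT :=
  p_SUPT all_UM all_HART all_KLOW all_RHO all_RJ

theorem all_WTA : S_WTA :=
  p_WTA all_EV

theorem all_WTB : S_WTB :=
  p_WTB all_EV

theorem all_WTC : S_WTC :=
  p_WTC all_EV all_UM

theorem all_REL : S_REL :=
  p_REL all_EV

theorem all_SINGLE : S_SINGLE :=
  p_SINGLE all_EV all_UM all_MARKR all_WTA all_WTB all_WTC all_REL all_REV

theorem all_DLOOPH : S_DLOOPH :=
  p_DLOOPH all_UM all_SINGLE all_REL all_LOOP all_OCC all_CUT all_REV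

theorem all_ONEK : S_ONEK :=
  p_ONEK all_RJ all_DLOOPH all_MUK

theorem all_DQF : S_DQF :=
  p_DQF all_RJ all_PPF all_PPE all_PPO

theorem all_PAC : S_PAC :=
  p_PAC all_RJ all_PPF all_PPE all_PPO

theorem all_UCS : S_UCS :=
  p_UCS all_SUPT all_ONEK all_DQF all_PAC all_RHO all_RJ all_UM all_PPO all_MUK

theorem all_BADM : S_BADM :=
  p_BADM all_PPE all_PPO all_MUK

theorem all_WLK : S_WLK :=
  p_WLK

theorem all_PEI : S_PEI :=
  p_PEI all_PEIA all_GAIN all_BADM all_WLK all_MUK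

theorem all_TH1 : S_TH1 :=
  p_TH1 all_TRF all_BAS all_COVA all_LOWX all_PEI all_PPO all_MUK

theorem all_HOL : S_HOL :=
  p_HOL all_COVR all_JOR all_FILL

theorem all_TRX : S_TRX :=
  p_TRX all_LAY all_LVB all_HOL

theorem all_LS3 : S_LS3 :=
  p_LS3

theorem all_ATT : S_ATT :=
  p_ATT all_JOR all_FILL

theorem all_OBA : S_OBA :=
  p_OBA all_ATT all_JOR

theorem all_RAD : S_RAD :=
  p_RAD

theorem all_OBS : S_OBS :=
  p_OBS all_OBA all_ATT all_RAD all_FRB all_JOR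

theorem all_RJAN : S_RJAN :=
  p_RJAN all_EIL

theorem all_JAN2 : S_JAN2 :=
  p_JAN2 all_RJAN all_FILL

theorem all_LNK : S_LNK :=
  p_LNK all_OBS all_JAN2

theorem all_APRU : S_APRU :=
  p_APRU all_LNK all_COV

theorem all_DMON : S_DMON :=
  p_DMON

theorem all_APRL : S_APRL :=
  p_APRL all_LNK all_COV all_DMON

theorem all_CZN : S_CZN :=
  p_CZN all_DMON

theorem all_DMEA : S_DMEA :=
  p_DMEA

theorem all_DMEZ : S_DMEZ :=
  p_DMEZ all_DMEA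

theorem all_GUL : S_GUL :=
  p_GUL all_TRX all_LS3 all_APRU all_APRL all_CZN all_DMEA all_DMEZ all_DMON

theorem all_RPCS : S_RPCS :=
  p_RPCS all_EV all_CUT

theorem all_RCLO : S_RCLO :=
  p_RCLO

theorem all_RFIT : S_RFIT :=
  p_RFIT all_EV all_RCLO

theorem all_RLC : S_RLC :=
  p_RLC

theorem all_RDTR : S_RDTR :=
  p_RDTR all_RJAN

theorem all_RPHA : S_RPHA :=
  p_RPHA all_RJAN

theorem all_RPHB : S_RPHB :=
  p_RPHB

theorem all_RSEC : S_RSEC :=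
  p_RSEC

theorem all_RDET : S_RDET :=
  p_RDET all_RJAN all_RDTR all_RPHA all_RPHB all_RSEC

theorem all_RCMP : S_RCMP :=
  p_RCMP all_RJAN

theorem all_RCORE : S_RCORE :=
  p_RCORE all_RPCS all_RFIT all_RLC all_RDET all_RCMP

theorem all_RLOOP : S_RLOOP :=
  p_RLOOP all_LOOP all_MARKR all_EV all_REV

theorem all_RONE : S_RONE :=
  p_RONE all_RLOOP all_MARKR all_LOOP

theorem all_RMUL : S_RMUL :=
  p_RMUL

theorem all_RINS : S_RINS :=
  p_RINS all_PPA all_PPO all_RJ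

theorem all_RROOT : S_RROOT :=
  p_RROOT all_LOOP all_MUK all_REV all_CUT

theorem all_RNUL : S_RNUL :=
  p_RNUL all_RCORE all_RONE all_RMUL all_RINS all_RROOT all_SUB all_LVA all_PPF all_PPO all_MUK
    all_REV

theorem all_RZS : S_RZS :=
  p_RZS all_RNUL all_LVA all_PPO all_MUK all_REV

theorem all_DLOC : S_DLOC :=
  p_DLOC all_DMON

theorem all_DMEB : S_DMEB :=
  p_DMEB

theorem all_FAR : S_FAR :=
  p_FAR all_DLOC all_DMEA all_DMEZ all_DMEB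

theorem all_RARE : S_RARE :=
  p_RARE all_FAR

theorem all_TIGH : S_TIGH :=
  p_TIGH all_GUL all_RZS all_CZN all_FAR all_RARE all_DMEA all_DMEZ all_DMON

theorem all_DSIM : S_DSIM :=
  p_DSIM all_COV

theorem all_RTR : S_RTR :=
  p_RTR all_DSIM all_DMEA all_DMEZ all_DMEB all_PPO all_MUK

theorem all_BLK : S_BLK :=
  p_BLK

theorem all_ZONE : S_ZONE :=
  p_ZONE all_BLK

theorem all_ZTWO : S_ZTWO :=
  p_ZTWO all_BLK all_DMON

theorem all_GRID : S_GRID :=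
  p_GRID all_CELLS all_DMON

theorem all_ZRC : S_ZRC :=
  p_ZRC all_RARE all_RTR all_FAR all_ZONE all_ZTWO all_GRID all_DMON

theorem all_TAIW : S_TAIW :=
  p_TAIW all_ZRC all_RARE all_DMON

theorem all_ZTHR : S_ZTHR :=
  p_ZTHR all_COV

theorem all_TAIL : S_TAIL :=
  p_TAIL all_TAIW all_ZRC all_ZTHR all_RARE all_DMON

theorem all_LOWN : S_LOWN :=
  p_LOWN all_GUL all_RZS all_CZN all_FAR all_RARE all_DMEA all_DMON

theorem all_CONT : S_CONT :=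
  p_CONT all_BUMP

theorem all_BBG : S_BBG :=
  p_BBG all_LNK all_CONT all_JOR all_DMON

theorem all_GHU : S_GHU :=
  p_GHU all_TRX all_BBG all_SURK all_LVA all_PPO all_PPA all_MUK all_DMEA all_DMEB all_DMON

theorem all_HUG : S_HUG :=
  p_HUG all_GHU all_RZS all_DAT all_CZN all_FAR all_DMEA all_DMEB

theorem all_PPM : S_PPM :=
  p_PPM all_PPO

theorem all_SMP : S_SMP :=
  p_SMP all_PPM all_GRID all_MUK

theorem all_DETT : S_DETT :=
  p_DETT all_RJAN all_RDTR all_FILL all_DMON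

theorem all_BASE : S_BASE :=
  p_BASE all_SMP all_DETT all_DMEA all_PPO all_PPA all_MUK

theorem all_GA : S_GA :=
  p_GA all_WALK all_GRID

theorem all_GAW : S_GAW :=
  p_GAW all_GA all_GRID

theorem all_ZREP : S_ZREP :=
  p_ZREP

theorem all_REF : S_REF :=
  p_REF all_GAW all_RARE all_RTR all_FAR all_GRID all_ZREP all_BLK

theorem all_MDL : S_MDL :=
  p_MDL all_PPA all_MUK all_DMEA all_DMON

theorem all_UPN : S_UPN :=
  p_UPN all_BASE all_REF all_MDL all_GRID all_DMON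

theorem all_FULL : S_FULL :=
  p_FULL all_DAT all_TH1 all_SUB all_TIGH all_TAIL all_LOWN all_HUG all_UPN

theorem all_RIGHT : S_RIGHT :=
  p_RIGHT all_UCS all_FULL all_REF all_BASE all_MDL all_EXP all_GRID all_DMON all_COV

theorem all_FEW : S_FEW :=
  p_FEW all_GA all_GRID

theorem all_STA : S_STA :=
  p_STA all_FEW all_RARE all_RTR all_FAR all_GRID

theorem all_ZSM : S_ZSM :=
  p_ZSM all_RTR all_MDL all_FAR all_DLOC all_BLK all_DMEA all_PPO all_PPA all_MUK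

theorem all_ZFIV : S_ZFIV :=
  p_ZFIV all_DETT all_ZREP all_GRID all_COV

theorem all_GONE : S_GONE :=
  p_GONE all_ZSM all_SMP all_ZFIV all_GRID all_PPO all_MUK

theorem all_STB : S_STB :=
  p_STB all_GONE all_FEW all_MDL all_GRID all_JOINT all_ENUM all_PPO all_MUK

theorem all_SEL : S_SEL :=
  p_SEL all_DMON all_GRID all_BLK

theorem all_ZGAI : S_ZGAI :=
  p_ZGAI all_DMON

theorem all_STD : S_STD :=
  p_STD all_SEL all_ZGAI all_DLOC all_DMON all_DMEA all_GRID all_ENUM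

theorem all_CHEB : S_CHEB :=
  p_CHEB

theorem all_LABEL : S_LABEL :=
  p_LABEL all_CHEB all_PPF all_PPO

theorem all_STEP : S_STEP :=
  p_STEP all_STA all_STB all_STD all_REF all_LABEL all_MDL all_PPO all_MUK all_DMEA all_DMON

theorem all_STRICT : S_STRICT :=
  p_STRICT all_UCS all_FULL all_STEP all_MDL all_EXP all_DMON

theorem all_LIM : S_LIM :=
  p_LIM all_BAS all_TRFO all_TREE

end Pool.Agent.P.MP_d66c6d_pr
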