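import Pool.Agent.P.MP_d66c6d_pr.F.Ppf
import Pool.Agent.P.MP_d66c6d_pr.F.Ppe
import Pool.Agent.P.MP_d66c6d_pr.F.Ppo
import Pool.Agent.P.MP_d66c6d_pr.F.Enum
import Pool.Agent.P.MP_d66c6d_pr.F.Joint
import Pool.Agent.P.MP_d66c6d_pr.F.Rch
import Pool.Agent.P.MP_d66c6d_pr.F.Aemap
import Pool.Agent.P.MP_d66c6d_pr.B.Gu
import Pool.Agent.P.MP_d66c6d_pr.B.Bern
import Pool.Agent.P.MP_d66c6d_pr.B.Rev
import Pool.Agent.P.MP_d66c6d_pr.F.Muk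
import Pool.Agent.P.MP_d66c6d_pr.S.Jn
import Pool.Agent.P.MP_d66c6d_pr.S.Zo
import Pool.Agent.P.MP_d66c6d_pr.S.Locj
import Pool.Agent.P.MP_d66c6d_pr.S.Dens
import Pool.Agent.P.MP_d66c6d_pr.F.Trans
import Pool.Agent.P.MP_d66c6d_pr.V.Suby1
import Pool.Agent.P.MP_d66c6d_pr.N.Jmn
import Pool.Agent.P.MP_d66c6d_pr.T.Fill
import Pool.Agent.P.MP_d66c6d_pr.J.Hulm
import Pool.Agent.P.MP_d66c6d_pr.S.Blob
import Pool.Agent.P.MP_d66c6d_pr.N.Dec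
import Pool.Agent.P.MP_d66c6d_pr.L.Lva
import Pool.Agent.P.MP_d66c6d_pr.L.Lvb
import Pool.Agent.P.MP_d66c6d_pr.N.Exm
import Pool.Agent.P.MP_d66c6d_pr.F.Exch
import Pool.Agent.P.MP_d66c6d_pr.N.Surk
import Pool.Agent.P.MP_d66c6d_pr.N.Mono
import Pool.Agent.P.MP_d66c6d_pr.N.Pos
import Pool.Agent.P.MP_d66c6d_pr.C.Conf
import Pool.Agent.P.MP_d66c6d_pr.N.Glue
import Pool.Agent.P.MP_d66c6d_pr.B.Gm
import Pool.Agent.P.MP_d66c6d_pr.B.Tri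
import Pool.Agent.P.MP_d66c6d_pr.B.Split
import Pool.Agent.P.MP_d66c6d_pr.B.Cut
import Pool.Agent.P.MP_d66c6d_pr.B.Shift
import Pool.Agent.P.MP_d66c6d_pr.B.Loop
import Pool.Agent.P.MP_d66c6d_pr.B.Mark
import Pool.Agent.P.MP_d66c6d_pr.C.Occ
import Pool.Agent.P.MP_d66c6d_pr.C.Mf
import Pool.Agent.P.MP_d66c6d_pr.B.Bm
import Pool.Agent.P.MP_d66c6d_pr.C.Kk
import Pool.Agent.P.MP_d66c6d_pr.C.Fin
import Pool.Agent.P.MP_d66c6d_pr.C.Dya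
import Pool.Agent.P.MP_d66c6d_pr.C.Dyn
import Pool.Agent.P.MP_d66c6d_pr.C.Gen
import Pool.Agent.P.MP_d66c6d_pr.C.Mom
import Pool.Agent.P.MP_d66c6d_pr.C.Mu
import Pool.Agent.P.MP_d66c6d_pr.C.Cgz
import Pool.Agent.P.MP_d66c6d_pr.C.Dup
import Pool.Agent.P.MP_d66c6d_pr.C.Duh
import Pool.Agent.P.MP_d66c6d_pr.C.Cgq
import Pool.Agent.P.MP_d66c6d_pr.C.Cm
import Pool.Agent.P.MP_d66c6d_pr.C.Cz
import Pool.Agent.P.MP_d66c6d_pr.C.Cp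
import Pool.Agent.P.MP_d66c6d_pr.C.Ci
import Pool.Agent.P.MP_d66c6d_pr.N.Cik
import Pool.Agent.P.MP_d66c6d_pr.T.Loga
import Pool.Agent.P.MP_d66c6d_pr.T.Eil
import Pool.Agent.P.MP_d66c6d_pr.T.Logu
import Pool.Agent.P.MP_d66c6d_pr.T.Uni
import Pool.Agent.P.MP_d66c6d_pr.T.Img
import Pool.Agent.P.MP_d66c6d_pr.T.Rmt
import Pool.Agent.P.MP_d66c6d_pr.N.Ims
import Pool.Agent.P.MP_d66c6d_pr.N.Jmp
import Pool.Agent.P.MP_d66c6d_pr.N.Ntj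
import Pool.Agent.P.MP_d66c6d_pr.N.Nc
import Pool.Agent.P.MP_d66c6d_pr.N.Small
import Pool.Agent.P.MP_d66c6d_pr.N.Nld
import Pool.Agent.P.MP_d66c6d_pr.N.Nl
import Pool.Agent.P.MP_d66c6d_pr.N.Bmk
import Pool.Agent.P.MP_d66c6d_pr.N.Enc
import Pool.Agent.P.MP_d66c6d_pr.U.Circ
import Pool.Agent.P.MP_d66c6d_pr.N.Start
import Pool.Agent.P.MP_d66c6d_pr.N.Hitb
import Pool.Agent.P.MP_d66c6d_pr.N.Cirm
import Pool.Agent.P.MP_d66c6d_pr.N.Hitg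
import Pool.Agent.P.MP_d66c6d_pr.N.Exd
import Pool.Agent.P.MP_d66c6d_pr.L.Exl
import Pool.Agent.P.MP_d66c6d_pr.L.Rc
import Pool.Agent.P.MP_d66c6d_pr.L.Hqd
import Pool.Agent.P.MP_d66c6d_pr.L.Hql
import Pool.Agent.P.MP_d66c6d_pr.L.Hqm
import Pool.Agent.P.MP_d66c6d_pr.L.Hqb
import Pool.Agent.P.MP_d66c6d_pr.L.Hitl
import Pool.Agent.P.MP_d66c6d_pr.J.Layy
import Pool.Agent.P.MP_d66c6d_pr.J.Pair
import Pool.Agent.P.MP_d66c6d_pr.U.Ev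
import Pool.Agent.P.MP_d66c6d_pr.J.Nk1
import Pool.Agent.P.MP_d66c6d_pr.U.Markr
import Pool.Agent.P.MP_d66c6d_pr.J.Mb
import Pool.Agent.P.MP_d66c6d_pr.J.Nkm
import Pool.Agent.P.MP_d66c6d_pr.J.Nka
import Pool.Agent.P.MP_d66c6d_pr.J.Nk2
import Pool.Agent.P.MP_d66c6d_pr.J.Nkb
import Pool.Agent.P.MP_d66c6d_pr.J.Nkx
import Pool.Agent.P.MP_d66c6d_pr.J.Bmc
import Pool.Agent.P.MP_d66c6d_pr.J.Rec
import Pool.Agent.P.MP_d66c6d_pr.J.Esc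
import Pool.Agent.P.MP_d66c6d_pr.J.Ock
import Pool.Agent.P.MP_d66c6d_pr.J.Nks
import Pool.Agent.P.MP_d66c6d_pr.J.Osc
import Pool.Agent.P.MP_d66c6d_pr.J.Hold
import Pool.Agent.P.MP_d66c6d_pr.J.Nkt
import Pool.Agent.P.MP_d66c6d_pr.J.Netd
import Pool.Agent.P.MP_d66c6d_pr.J.Top
import Pool.Agent.P.MP_d66c6d_pr.J.Jms
import Pool.Agent.P.MP_d66c6d_pr.J.Neck
import Pool.Agent.P.MP_d66c6d_pr.J.Solid
import Pool.Agent.P.MP_d66c6d_pr.J.Pairk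
import Pool.Agent.P.MP_d66c6d_pr.E.Djl
import Pool.Agent.P.MP_d66c6d_pr.E.Lpc
import Pool.Agent.P.MP_d66c6d_pr.E.Lcc
import Pool.Agent.P.MP_d66c6d_pr.J.Card
import Pool.Agent.P.MP_d66c6d_pr.E.Fimg
import Pool.Agent.P.MP_d66c6d_pr.J.Caru
import Pool.Agent.P.MP_d66c6d_pr.J.Car1
import Pool.Agent.P.MP_d66c6d_pr.J.Arc
import Pool.Agent.P.MP_d66c6d_pr.J.Car2
import Pool.Agent.P.MP_d66c6d_pr.J.Extm
import Pool.Agent.P.MP_d66c6d_pr.J.Intm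
import Pool.Agent.P.MP_d66c6d_pr.J.Schg
import Pool.Agent.P.MP_d66c6d_pr.J.Jdet
import Pool.Agent.P.MP_d66c6d_pr.J.Ufam
import Pool.Agent.P.MP_d66c6d_pr.A.Jor
import Pool.Agent.P.MP_d66c6d_pr.J.Jall
import Pool.Agent.P.MP_d66c6d_pr.J.Genj
import Pool.Agent.P.MP_d66c6d_pr.V.Upg1
import Pool.Agent.P.MP_d66c6d_pr.U.Um
import Pool.Agent.P.MP_d66c6d_pr.U.Har
import Pool.Agent.P.MP_d66c6d_pr.U.Hart
import Pool.Agent.P.MP_d66c6d_pr.U.Scal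
import Pool.Agent.P.MP_d66c6d_pr.U.Klow
import Pool.Agent.P.MP_d66c6d_pr.U.Hit
import Pool.Agent.P.MP_d66c6d_pr.U.Rho
import Pool.Agent.P.MP_d66c6d_pr.U.Rj
import Pool.Agent.P.MP_d66c6d_pr.U.Supt
import Pool.Agent.P.MP_d66c6d_pr.U.Wta
import Pool.Agent.P.MP_d66c6d_pr.U.Wtb
import Pool.Agent.P.MP_d66c6d_pr.U.Wtc
import Pool.Agent.P.MP_d66c6d_pr.U.Rel
import Pool.Agent.P.MP_d66c6d_pr.U.Single
import Pool.Agent.P.MP_d66c6d_pr.U.Dlooph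
import Pool.Agent.P.MP_d66c6d_pr.U.Onek
import Pool.Agent.P.MP_d66c6d_pr.U.Dqf
import Pool.Agent.P.MP_d66c6d_pr.U.Pac
import Pool.Agent.P.MP_d66c6d_pr.G.Ucs
import Pool.Agent.P.MP_d66c6d_pr.V.Bas1
import Pool.Agent.P.MP_d66c6d_pr.A.Cov
import Pool.Agent.P.MP_d66c6d_pr.A.Xg
import Pool.Agent.P.MP_d66c6d_pr.V.Ratd
import Pool.Agent.P.MP_d66c6d_pr.V.Rats
import Pool.Agent.P.MP_d66c6d_pr.V.Lvw
import Pool.Agent.P.MP_d66c6d_pr.A.Tree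
import Pool.Agent.P.MP_d66c6d_pr.A.Trfo
import Pool.Agent.P.MP_d66c6d_pr.A.Trf
import Pool.Agent.P.MP_d66c6d_pr.A.Hom
import Pool.Agent.P.MP_d66c6d_pr.V.Dat1
import Pool.Agent.P.MP_d66c6d_pr.S.Subq
import Pool.Agent.P.MP_d66c6d_pr.V.Sub1
import Pool.Agent.P.MP_d66c6d_pr.V.Layt1
import Pool.Agent.P.MP_d66c6d_pr.V.Lay1
import Pool.Agent.P.MP_d66c6d_pr.S.Covr
import Pool.Agent.P.MP_d66c6d_pr.V.Cova1
import Pool.Agent.P.MP_d66c6d_pr.V.Lowx1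
import Pool.Agent.P.MP_d66c6d_pr.S.Walk
import Pool.Agent.P.MP_d66c6d_pr.S.Ani
import Pool.Agent.P.MP_d66c6d_pr.S.Cells
import Pool.Agent.P.MP_d66c6d_pr.S.Peia
import Pool.Agent.P.MP_d66c6d_pr.S.Gain
import Pool.Agent.P.MP_d66c6d_pr.S.Badm
import Pool.Agent.P.MP_d66c6d_pr.S.Wlk
import Pool.Agent.P.MP_d66c6d_pr.S.Pei
import Pool.Agent.P.MP_d66c6d_pr.V.Th2
import Pool.Agent.P.MP_d66c6d_pr.H.Hol
import Pool.Agent.P.MP_d66c6d_pr.V.Trx1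
import Pool.Agent.P.MP_d66c6d_pr.M.Ls3
import Pool.Agent.P.MP_d66c6d_pr.H.Att
import Pool.Agent.P.MP_d66c6d_pr.H.Oba
import Pool.Agent.P.MP_d66c6d_pr.H.Rad
import Pool.Agent.P.MP_d66c6d_pr.E.Net
import Pool.Agent.P.MP_d66c6d_pr.E.Frb
import Pool.Agent.P.MP_d66c6d_pr.H.Obs
import Pool.Agent.P.MP_d66c6d_pr.R.Rjan
import Pool.Agent.P.MP_d66c6d_pr.D.Jan2
import Pool.Agent.P.MP_d66c6d_pr.H.Lnk
import Pool.Agent.P.MP_d66c6d_pr.V.Aprk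
import Pool.Agent.P.MP_d66c6d_pr.D.Dmon
import Pool.Agent.P.MP_d66c6d_pr.H.Aprl
import Pool.Agent.P.MP_d66c6d_pr.D.Dmea
import Pool.Agent.P.MP_d66c6d_pr.V.Dmk
import Pool.Agent.P.MP_d66c6d_pr.V.Dlk
import Pool.Agent.P.MP_d66c6d_pr.V.Gul1
import Pool.Agent.P.MP_d66c6d_pr.R.Rpcs
import Pool.Agent.P.MP_d66c6d_pr.R.Rclo
import Pool.Agent.P.MP_d66c6d_pr.R.Rfit
import Pool.Agent.P.MP_d66c6d_pr.R.Rlc
import Pool.Agent.P.MP_d66c6d_pr.R.Rdtr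
import Pool.Agent.P.MP_d66c6d_pr.R.Rpha
import Pool.Agent.P.MP_d66c6d_pr.R.Rphb
import Pool.Agent.P.MP_d66c6d_pr.R.Rsec
import Pool.Agent.P.MP_d66c6d_pr.R.Rdet
import Pool.Agent.P.MP_d66c6d_pr.R.Rcmp
import Pool.Agent.P.MP_d66c6d_pr.R.Rcore
import Pool.Agent.P.MP_d66c6d_pr.R.Rloop
import Pool.Agent.P.MP_d66c6d_pr.R.Rone
import Pool.Agent.P.MP_d66c6d_pr.R.Rmul
import Pool.Agent.P.MP_d66c6d_pr.F.Ppa
import Pool.Agent.P.MP_d66c6d_pr.R.Rins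
import Pool.Agent.P.MP_d66c6d_pr.R.Rroot
import Pool.Agent.P.MP_d66c6d_pr.V.Rnul1
import Pool.Agent.P.MP_d66c6d_pr.V.Rzs1
import Pool.Agent.P.MP_d66c6d_pr.V.Tigk
import Pool.Agent.P.MP_d66c6d_pr.D.Czn
import Pool.Agent.P.MP_d66c6d_pr.D.Dloc
import Pool.Agent.P.MP_d66c6d_pr.D.Dmez
import Pool.Agent.P.MP_d66c6d_pr.D.Dmeb
import Pool.Agent.P.MP_d66c6d_pr.M.Far
import Pool.Agent.P.MP_d66c6d_pr.V.Lows
import Pool.Agent.P.MP_d66c6d_pr.M.Rare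
import Pool.Agent.P.MP_d66c6d_pr.D.Dsim
import Pool.Agent.P.MP_d66c6d_pr.M.Rtr
import Pool.Agent.P.MP_d66c6d_pr.D.Blk
import Pool.Agent.P.MP_d66c6d_pr.D.Zone
import Pool.Agent.P.MP_d66c6d_pr.D.Ztwo
import Pool.Agent.P.MP_d66c6d_pr.D.Grid
import Pool.Agent.P.MP_d66c6d_pr.M.Zrc
import Pool.Agent.P.MP_d66c6d_pr.V.Taiwq
import Pool.Agent.P.MP_d66c6d_pr.D.Zthr
import Pool.Agent.P.MP_d66c6d_pr.V.Tailq
import Pool.Agent.P.MP_d66c6d_pr.V.Covc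
import Pool.Agent.P.MP_d66c6d_pr.V.Zkc
import Pool.Agent.P.MP_d66c6d_pr.V.Tails
import Pool.Agent.P.MP_d66c6d_pr.M.Ga
import Pool.Agent.P.MP_d66c6d_pr.M.Few
import Pool.Agent.P.MP_d66c6d_pr.V.Raref
import Pool.Agent.P.MP_d66c6d_pr.V.Rmany
import Pool.Agent.P.MP_d66c6d_pr.V.Cgp
import Pool.Agent.P.MP_d66c6d_pr.V.Cgk
import Pool.Agent.P.MP_d66c6d_pr.V.Tigh2
import Pool.Agent.P.MP_d66c6d_pr.M.Gaw
import Pool.Agent.P.MP_d66c6d_pr.D.Zrep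
import Pool.Agent.P.MP_d66c6d_pr.M.Mdl
import Pool.Agent.P.MP_d66c6d_pr.V.Ref1
import Pool.Agent.P.MP_d66c6d_pr.V.Lown2
import Pool.Agent.P.MP_d66c6d_pr.M.Ppm
import Pool.Agent.P.MP_d66c6d_pr.M.Smp
import Pool.Agent.P.MP_d66c6d_pr.D.Dett
import Pool.Agent.P.MP_d66c6d_pr.M.Base
import Pool.Agent.P.MP_d66c6d_pr.V.Blow
import Pool.Agent.P.MP_d66c6d_pr.M.Taiw
import Pool.Agent.P.MP_d66c6d_pr.M.Tail
import Pool.Agent.P.MP_d66c6d_pr.M.Ref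
import Pool.Agent.P.MP_d66c6d_pr.M.Upn
import Pool.Agent.P.MP_d66c6d_pr.E.Bump
import Pool.Agent.P.MP_d66c6d_pr.H.Cont
import Pool.Agent.P.MP_d66c6d_pr.H.Bbg
import Pool.Agent.P.MP_d66c6d_pr.V.Ghu1
import Pool.Agent.P.MP_d66c6d_pr.V.Hug1
import Pool.Agent.P.MP_d66c6d_pr.V.Full2
import Pool.Agent.P.MP_d66c6d_pr.E.Bli
import Pool.Agent.P.MP_d66c6d_pr.V.Ltd1
import Pool.Agent.P.MP_d66c6d_pr.E.Fra
import Pool.Agent.P.MP_d66c6d_pr.V.Frc1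
import Pool.Agent.P.MP_d66c6d_pr.E.Blm
import Pool.Agent.P.MP_d66c6d_pr.V.Lt1
import Pool.Agent.P.MP_d66c6d_pr.E.Blc
import Pool.Agent.P.MP_d66c6d_pr.E.Pel
import Pool.Agent.P.MP_d66c6d_pr.V.Lowt1
import Pool.Agent.P.MP_d66c6d_pr.V.Left2
import Pool.Agent.P.MP_d66c6d_pr.V.Upb1
import Pool.Agent.P.MP_d66c6d_pr.V.Lim2
import Pool.Agent.P.MP_d66c6d_pr.A.Exp
import Pool.Agent.P.MP_d66c6d_pr.V.Right2
import Pool.Agent.P.MP_d66c6d_pr.M.Sta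
import Pool.Agent.P.MP_d66c6d_pr.M.Zsm
import Pool.Agent.P.MP_d66c6d_pr.D.Zfiv
import Pool.Agent.P.MP_d66c6d_pr.M.Gone
import Pool.Agent.P.MP_d66c6d_pr.M.Stb
import Pool.Agent.P.MP_d66c6d_pr.D.Sel
import Pool.Agent.P.MP_d66c6d_pr.D.Zgai
import Pool.Agent.P.MP_d66c6d_pr.M.Std
import Pool.Agent.P.MP_d66c6d_pr.M.Cheb
import Pool.Agent.P.MP_d66c6d_pr.M.Label
import Pool.Agent.P.MP_d66c6d_pr.M.Step
import Pool.Agent.P.MP_d66c6d_pr.V.Strict2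
import Pool.Agent.P.MP_d66c6d_pr.V.Fin2
import Pool.Agent.P.MP_d66c6d_pr.V.Main2

namespace Pool.Agent.P.MP_d66c6d_pr

theorem al2_PPF : S_PPF :=
  p_PPF

theorem al2_PPE : S_PPE :=
  p_PPE al2_PPF

theorem al2_PPO : S_PPO :=
  p_PPO al2_PPE

theorem al2_ENUM : S_ENUM :=
  p_ENUM

theorem al2_JOINT : S_JOINT :=
  p_JOINT al2_PPF al2_PPE al2_PPO al2_ENUM

theorem al2_RCH : S_RCH :=
  p_RCH al2_ENUM

theorem al2_AEMAP : S_AEMAP :=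
  p_AEMAP

theorem al2_GU : S_GU :=
  p_GU

theorem al2_BERN : S_BERN :=
  p_BERN

theorem al2_REV : S_REV :=
  p_REV al2_GU al2_BERN

theorem al2_MUK : S_MUK :=
  p_MUK al2_PPO al2_AEMAP al2_REV

theorem al2_JN : S_JN :=
  p_JN al2_JOINT al2_RCH al2_PPO al2_MUK

theorem al2_ZO : S_ZO :=
  p_ZO al2_JN al2_PPO al2_MUK

theorem al2_LOCJ : S_LOCJ :=
  p_LOCJ

theorem al2_DENS : S_DENS :=
  p_DENS al2_JN al2_ZO al2_LOCJ al2_PPO al2_MUK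

theorem al2_TRANS : S_TRANS :=
  p_TRANS al2_PPE

theorem al2_SUBY1 : S_SUBY1 :=
  p_SUBY1 al2_DENS al2_TRANS al2_MUK

theorem al2_JMN : S_JMN :=
  p_JMN al2_RCH al2_JOINT

theorem al2_FILL : S_FILL :=
  p_FILL

theorem al2_HULM : S_HULM :=
  p_HULM al2_JMN al2_JOINT al2_FILL

theorem al2_BLOB : S_BLOB :=
  p_BLOB al2_JN

theorem al2_DEC : S_DEC :=
  p_DEC al2_PPO al2_JOINT al2_MUK

theorem al2_LVA : S_LVA :=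
  p_LVA al2_PPO al2_JOINT al2_MUK

theorem al2_LVB : S_LVB :=
  p_LVB al2_PPO al2_MUK

theorem al2_EXM : S_EXM :=
  p_EXM al2_JMN al2_RCH al2_JOINT al2_ENUM

theorem al2_EXCH : S_EXCH :=
  p_EXCH al2_PPE al2_PPO al2_ENUM al2_JOINT

theorem al2_SURK : S_SURK :=
  p_SURK al2_PPO al2_MUK

theorem al2_MONO : S_MONO :=
  p_MONO al2_PPO al2_DEC al2_JMN al2_MUK

theorem al2_POS : S_POS :=
  p_POS al2_PPO al2_PPE al2_DEC al2_JMN al2_MUK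

theorem al2_CONF : S_CONF :=
  p_CONF

theorem al2_GLUE : S_GLUE :=
  p_GLUE al2_JMN al2_EXCH al2_CONF

theorem al2_GM : S_GM :=
  p_GM

theorem al2_TRI : S_TRI :=
  p_TRI al2_GU al2_BERN al2_GM

theorem al2_SPLIT : S_SPLIT :=
  p_SPLIT al2_TRI

theorem al2_CUT : S_CUT :=
  p_CUT

theorem al2_SHIFT : S_SHIFT :=
  p_SHIFT al2_SPLIT al2_CUT

theorem al2_LOOP : S_LOOP :=
  p_LOOP al2_SHIFT

theorem al2_MARK : S_MARK :=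
  p_MARK al2_SPLIT

theorem al2_OCC : S_OCC :=
  p_OCC al2_CUT

theorem al2_MF : S_MF :=
  p_MF al2_LOOP al2_MARK al2_OCC al2_CUT al2_REV

theorem al2_BM : S_BM :=
  p_BM al2_GM

theorem al2_KK : S_KK :=
  p_KK al2_SPLIT al2_CUT al2_REV al2_BM al2_GM

theorem al2_FIN : S_FIN :=
  p_FIN al2_KK al2_GM

theorem al2_DYA : S_DYA :=
  p_DYA al2_KK al2_BM al2_GM al2_REV

theorem al2_DYN : S_DYN :=
  p_DYN al2_KK al2_FIN al2_DYA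

theorem al2_GEN : S_GEN :=
  p_GEN al2_GM

theorem al2_MOM : S_MOM :=
  p_MOM al2_DYN al2_GEN al2_GM

theorem al2_MU : S_MU :=
  p_MU

theorem al2_CGZ : S_CGZ :=
  p_CGZ al2_MOM al2_MU al2_CONF al2_KK al2_FIN

theorem al2_DUP : S_DUP :=
  p_DUP al2_CUT al2_OCC

theorem al2_DUH : S_DUH :=
  p_DUH al2_DUP al2_MARK al2_REV

theorem al2_CGQ : S_CGQ :=
  p_CGQ al2_CGZ al2_DUH al2_CONF al2_KK al2_FIN

theorem al2_CM : S_CM :=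
  p_CM al2_MF al2_CGQ al2_CONF al2_KK

theorem al2_CZ : S_CZ :=
  p_CZ al2_CM al2_CONF al2_REV

theorem al2_CP : S_CP :=
  p_CP al2_CZ al2_CONF

theorem al2_CI : S_CI :=
  p_CI al2_CP al2_CONF al2_REV

theorem al2_CIK : S_CIK :=
  p_CIK al2_CI

theorem al2_LOGA : S_LOGA :=
  p_LOGA

theorem al2_EIL : S_EIL :=
  p_EIL al2_LOGA al2_FILL

theorem al2_LOGU : S_LOGU :=
  p_LOGU al2_LOGA al2_EIL

theorem al2_UNI : S_UNI :=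
  p_UNI al2_LOGA

theorem al2_IMG : S_IMG :=
  p_IMG al2_FILL al2_UNI

theorem al2_RMT : S_RMT :=
  p_RMT al2_LOGU al2_IMG

theorem al2_IMS : S_IMS :=
  p_IMS al2_CIK al2_RMT al2_IMG al2_PPO al2_DEC al2_MUK

theorem al2_JMP : S_JMP :=
  p_JMP al2_EXCH al2_JMN al2_DEC al2_SURK al2_MONO al2_POS al2_GLUE al2_IMS

theorem al2_NTJ : S_NTJ :=
  p_NTJ al2_JMP al2_MONO al2_JMN

theorem al2_NC : S_NC :=
  p_NC al2_NTJ al2_IMS al2_RMT al2_JMN al2_DEC al2_CONF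

theorem al2_SMALL : S_SMALL :=
  p_SMALL al2_PPO al2_MUK al2_JMN al2_DEC

theorem al2_NLD : S_NLD :=
  p_NLD

theorem al2_NL : S_NL :=
  p_NL al2_NC al2_SMALL al2_NLD al2_IMG al2_DEC al2_MONO

theorem al2_BMK : S_BMK :=
  p_BMK al2_SPLIT al2_BM al2_GM al2_REV

theorem al2_ENC : S_ENC :=
  p_ENC

theorem al2_CIRC : S_CIRC :=
  p_CIRC al2_LOGA al2_CUT

theorem al2_START : S_START :=
  p_START al2_BMK al2_ENC al2_GM al2_BM al2_CUT al2_REV al2_CIRC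

theorem al2_HITB : S_HITB :=
  p_HITB al2_START al2_BMK al2_ENC al2_CUT al2_REV al2_BM

theorem al2_CIRM : S_CIRM :=
  p_CIRM al2_ENC

theorem al2_HITG : S_HITG :=
  p_HITG al2_HITB al2_CIRM al2_BMK al2_ENC al2_CUT al2_REV al2_MUK

theorem al2_EXD : S_EXD :=
  p_EXD al2_EXM al2_EXCH al2_JMN al2_NL al2_HITG al2_DEC al2_MUK al2_PPO al2_JOINT

theorem al2_EXL : S_EXL :=
  p_EXL al2_EXD al2_EXM al2_LVA

theorem al2_RC : S_RC :=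
  p_RC

theorem al2_HQD : S_HQD :=
  p_HQD al2_CUT

theorem al2_HQL : S_HQL :=
  p_HQL al2_HITG al2_CIRM al2_SPLIT al2_CUT

theorem al2_HQM : S_HQM :=
  p_HQM al2_ENC al2_CUT

theorem al2_HQB : S_HQB :=
  p_HQB al2_HQM al2_JMN al2_JOINT

theorem al2_HITL : S_HITL :=
  p_HITL al2_HQL al2_HQB al2_JOINT al2_PPO al2_MUK al2_DEC

theorem al2_LAYY : S_LAYY :=
  p_LAYY al2_BLOB al2_JN al2_DEC al2_LVA al2_LVB al2_EXL al2_RC al2_NC al2_HQD al2_HQL al2_HITL al2_PPO al2_MUK al2_REV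

theorem al2_PAIR : S_PAIR :=
  p_PAIR al2_PPO al2_JOINT

theorem al2_EV : S_EV :=
  p_EV al2_CUT

theorem al2_NK1 : S_NK1 :=
  p_NK1 al2_EV

theorem al2_MARKR : S_MARKR :=
  p_MARKR al2_MARK al2_SPLIT al2_REV

theorem al2_MB : S_MB :=
  p_MB al2_BM

theorem al2_NKM : S_NKM :=
  p_NKM al2_REV

theorem al2_NKA : S_NKA :=
  p_NKA al2_MARKR al2_MB al2_REV al2_NKM

theorem al2_NK2 : S_NK2 :=
  p_NK2 al2_EV

theorem al2_NKB : S_NKB :=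
  p_NKB al2_MARKR al2_MB al2_NK2 al2_NKM al2_REV al2_EV

theorem al2_NKX : S_NKX :=
  p_NKX al2_NK1 al2_NKA al2_NKB al2_NKM

theorem al2_BMC : S_BMC :=
  p_BMC al2_START al2_BMK al2_ENC

theorem al2_REC : S_REC :=
  p_REC al2_BMC al2_BMK al2_GM al2_CUT al2_BM al2_REV

theorem al2_ESC : S_ESC :=
  p_ESC al2_REC al2_KK al2_BMK al2_CUT

theorem al2_OCK : S_OCK :=
  p_OCK al2_BMC al2_KK

theorem al2_NKS : S_NKS :=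
  p_NKS al2_ESC al2_OCK al2_REV

theorem al2_OSC : S_OSC :=
  p_OSC al2_BMK al2_BM al2_GM al2_CUT al2_REV

theorem al2_HOLD : S_HOLD :=
  p_HOLD al2_OSC al2_NKM

theorem al2_NKT : S_NKT :=
  p_NKT al2_NKX al2_NKS al2_NKM al2_MB al2_HOLD al2_REV

theorem al2_NETD : S_NETD :=
  p_NETD

theorem al2_TOP : S_TOP :=
  p_TOP al2_NETD al2_FILL al2_EIL al2_LOGA al2_CUT

theorem al2_JMS : S_JMS :=
  p_JMS

theorem al2_NECK : S_NECK :=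
  p_NECK al2_NKT al2_TOP al2_JMS al2_NKM al2_HOLD al2_HITG al2_REV al2_CUT

theorem al2_SOLID : S_SOLID :=
  p_SOLID al2_NECK al2_JMS al2_MARK al2_LOOP al2_REV al2_CUT al2_MUK

theorem al2_PAIRK : S_PAIRK :=
  p_PAIRK al2_PAIR al2_SOLID al2_HITG al2_PPO al2_MUK al2_DEC al2_CUT al2_REV

theorem al2_DJL : S_DJL :=
  p_DJL al2_FILL

theorem al2_LPC : S_LPC :=
  p_LPC

theorem al2_LCC : S_LCC :=
  p_LCC al2_DJL al2_LPC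

theorem al2_CARD : S_CARD :=
  p_CARD

theorem al2_FIMG : S_FIMG :=
  p_FIMG al2_FILL al2_CONF

theorem al2_CARU : S_CARU :=
  p_CARU al2_CARD al2_FIMG al2_EIL al2_FILL

theorem al2_CAR1 : S_CAR1 :=
  p_CAR1 al2_CARU

theorem al2_ARC : S_ARC :=
  p_ARC

theorem al2_CAR2 : S_CAR2 :=
  p_CAR2 al2_ARC al2_FIMG al2_EIL

theorem al2_EXTM : S_EXTM :=
  p_EXTM al2_RMT al2_IMG al2_CAR1 al2_CAR2

theorem al2_INTM : S_INTM :=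
  p_INTM al2_RMT al2_CAR1 al2_CAR2 al2_EIL al2_LOGA al2_FILL

theorem al2_SCHG : S_SCHG :=
  p_SCHG

theorem al2_JDET : S_JDET :=
  p_JDET al2_LCC al2_EXTM al2_INTM al2_SCHG al2_FILL

theorem al2_UFAM : S_UFAM :=
  p_UFAM al2_FILL

theorem al2_JOR : S_JOR :=
  p_JOR

theorem al2_JALL : S_JALL :=
  p_JALL al2_LAYY al2_PAIRK al2_JDET al2_UFAM al2_LVB al2_JOR

theorem al2_GENJ : S_GENJ :=
  p_GENJ al2_HULM al2_ENUM al2_JALL al2_LVB al2_DEC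

theorem al2_UPG1 : S_UPG1 :=
  p_UPG1 al2_GENJ al2_TRANS al2_MUK

theorem al2_UM : S_UM :=
  p_UM al2_FILL

theorem al2_HAR : S_HAR :=
  p_HAR al2_EV al2_UM al2_MARKR al2_REV

theorem al2_HART : S_HART :=
  p_HART al2_EV al2_UM al2_HAR al2_REV

theorem al2_SCAL : S_SCAL :=
  p_SCAL al2_UM

theorem al2_KLOW : S_KLOW :=
  p_KLOW al2_UM al2_CIRC al2_SCAL al2_CUT

theorem al2_HIT : S_HIT :=
  p_HIT al2_KK al2_FIN al2_DYN al2_GEN al2_GM al2_BM al2_SPLIT al2_REV al2_CUT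

theorem al2_RHO : S_RHO :=
  p_RHO al2_EV al2_UM al2_MARKR al2_SCAL al2_HIT al2_KK al2_FIN al2_BM al2_REV

theorem al2_RJ : S_RJ :=
  p_RJ

theorem al2_SUPT : S_SUPT :=
  p_SUPT al2_UM al2_HART al2_KLOW al2_RHO al2_RJ

theorem al2_WTA : S_WTA :=
  p_WTA al2_EV

theorem al2_WTB : S_WTB :=
  p_WTB al2_EV

theorem al2_WTC : S_WTC :=
  p_WTC al2_EV al2_UM

theorem al2_REL : S_REL :=
  p_REL al2_EV

theorem al2_SINGLE : S_SINGLE :=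
  p_SINGLE al2_EV al2_UM al2_MARKR al2_WTA al2_WTB al2_WTC al2_REL al2_REV

theorem al2_DLOOPH : S_DLOOPH :=
  p_DLOOPH al2_UM al2_SINGLE al2_REL al2_LOOP al2_OCC al2_CUT al2_REV

theorem al2_ONEK : S_ONEK :=
  p_ONEK al2_RJ al2_DLOOPH al2_MUK

theorem al2_DQF : S_DQF :=
  p_DQF al2_RJ al2_PPF al2_PPE al2_PPO

theorem al2_PAC : S_PAC :=
  p_PAC al2_RJ al2_PPF al2_PPE al2_PPO

theorem al2_UCS : S_UCS :=
  p_UCS al2_SUPT al2_ONEK al2_DQF al2_PAC al2_RHO al2_RJ al2_UM al2_PPO al2_MUK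

theorem al2_BAS1 : S_BAS1 :=
  p_BAS1 al2_JOR

theorem al2_COV : S_COV :=
  p_COV

theorem al2_XG : S_XG :=
  p_XG al2_COV

theorem al2_RATD : S_RATD :=
  p_RATD al2_XG

theorem al2_RATS : S_RATS :=
  p_RATS al2_COV

theorem al2_LVW : S_LVW :=
  p_LVW al2_BAS1 al2_RATD al2_RATS

theorem al2_TREE : S_TREE :=
  p_TREE

theorem al2_TRFO : S_TRFO :=
  p_TRFO al2_TREE

theorem al2_TRF : S_TRF :=
  p_TRF al2_TRFO al2_TRANS al2_MUK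

theorem al2_HOM : S_HOM :=
  p_HOM

theorem al2_DAT1 : S_DAT1 :=
  p_DAT1 al2_TRF al2_HOM al2_JOR al2_PPO al2_MUK

theorem al2_SUBQ : S_SUBQ :=
  p_SUBQ al2_JN al2_PPO al2_MUK

theorem al2_SUB1 : S_SUB1 :=
  p_SUB1 al2_BLOB al2_SUBQ al2_JN al2_MUK al2_PPO

theorem al2_LAYT1 : S_LAYT1 :=
  p_LAYT1 al2_SUB1 al2_DEC al2_LVA al2_EXL al2_RC

theorem al2_LAY1 : S_LAY1 :=
  p_LAY1 al2_LAYT1 al2_SUB1 al2_JOR al2_NC al2_LVB al2_HQD al2_HQL al2_HITL al2_PPO al2_MUK al2_REV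

theorem al2_COVR : S_COVR :=
  p_COVR al2_FILL

theorem al2_COVA1 : S_COVA1 :=
  p_COVA1 al2_LAY1 al2_COVR al2_PPO al2_MUK al2_FILL

theorem al2_LOWX1 : S_LOWX1 :=
  p_LOWX1

theorem al2_WALK : S_WALK :=
  p_WALK

theorem al2_ANI : S_ANI :=
  p_ANI al2_WALK

theorem al2_CELLS : S_CELLS :=
  p_CELLS

theorem al2_PEIA : S_PEIA :=
  p_PEIA al2_ANI al2_CELLS al2_PPO

theorem al2_GAIN : S_GAIN :=
  p_GAIN al2_CELLS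

theorem al2_BADM : S_BADM :=
  p_BADM al2_PPE al2_PPO al2_MUK

theorem al2_WLK : S_WLK :=
  p_WLK

theorem al2_PEI : S_PEI :=
  p_PEI al2_PEIA al2_GAIN al2_BADM al2_WLK al2_MUK

theorem al2_TH2 : S_TH2 :=
  p_TH2 al2_TRF al2_BAS1 al2_COVA1 al2_LOWX1 al2_PEI al2_PPO al2_MUK

theorem al2_HOL : S_HOL :=
  p_HOL al2_COVR al2_JOR al2_FILL

theorem al2_TRX1 : S_TRX1 :=
  p_TRX1 al2_LAY1 al2_LVB al2_HOL

theorem al2_LS3 : S_LS3 :=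
  p_LS3

theorem al2_ATT : S_ATT :=
  p_ATT al2_JOR al2_FILL

theorem al2_OBA : S_OBA :=
  p_OBA al2_ATT al2_JOR

theorem al2_RAD : S_RAD :=
  p_RAD

theorem al2_NET : S_NET :=
  p_NET al2_LOGA

theorem al2_FRB : S_FRB :=
  p_FRB al2_LCC al2_NET al2_FILL al2_EIL

theorem al2_OBS : S_OBS :=
  p_OBS al2_OBA al2_ATT al2_RAD al2_FRB al2_JOR

theorem al2_RJAN : S_RJAN :=
  p_RJAN al2_EIL

theorem al2_JAN2 : S_JAN2 :=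
  p_JAN2 al2_RJAN al2_FILL

theorem al2_LNK : S_LNK :=
  p_LNK al2_OBS al2_JAN2

theorem al2_APRK : S_APRK :=
  p_APRK al2_LNK al2_COV

theorem al2_DMON : S_DMON :=
  p_DMON

theorem al2_APRL : S_APRL :=
  p_APRL al2_LNK al2_COV al2_DMON

theorem al2_DMEA : S_DMEA :=
  p_DMEA

theorem al2_DMK : S_DMK :=
  p_DMK al2_DMEA

theorem al2_DLK : S_DLK :=
  p_DLK al2_DMK al2_DMON

theorem al2_GUL1 : S_GUL1 :=
  p_GUL1 al2_TRX1 al2_LS3 al2_APRK al2_APRL al2_DLK al2_DMK al2_DMEA al2_DMON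

theorem al2_RPCS : S_RPCS :=
  p_RPCS al2_EV al2_CUT

theorem al2_RCLO : S_RCLO :=
  p_RCLO

theorem al2_RFIT : S_RFIT :=
  p_RFIT al2_EV al2_RCLO

theorem al2_RLC : S_RLC :=
  p_RLC

theorem al2_RDTR : S_RDTR :=
  p_RDTR al2_RJAN

theorem al2_RPHA : S_RPHA :=
  p_RPHA al2_RJAN

theorem al2_RPHB : S_RPHB :=
  p_RPHB

theorem al2_RSEC : S_RSEC :=
  p_RSEC

theorem al2_RDET : S_RDET :=
  p_RDET al2_RJAN al2_RDTR al2_RPHA al2_RPHB al2_RSEC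

theorem al2_RCMP : S_RCMP :=
  p_RCMP al2_RJAN

theorem al2_RCORE : S_RCORE :=
  p_RCORE al2_RPCS al2_RFIT al2_RLC al2_RDET al2_RCMP

theorem al2_RLOOP : S_RLOOP :=
  p_RLOOP al2_LOOP al2_MARKR al2_EV al2_REV

theorem al2_RONE : S_RONE :=
  p_RONE al2_RLOOP al2_MARKR al2_LOOP

theorem al2_RMUL : S_RMUL :=
  p_RMUL

theorem al2_PPA : S_PPA :=
  p_PPA al2_PPF al2_PPE al2_PPO

theorem al2_RINS : S_RINS :=
  p_RINS al2_PPA al2_PPO al2_RJ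

theorem al2_RROOT : S_RROOT :=
  p_RROOT al2_LOOP al2_MUK al2_REV al2_CUT

theorem al2_RNUL1 : S_RNUL1 :=
  p_RNUL1 al2_RCORE al2_RONE al2_RMUL al2_RINS al2_RROOT al2_SUB1 al2_LVA al2_PPF al2_PPO al2_MUK al2_REV

theorem al2_RZS1 : S_RZS1 :=
  p_RZS1 al2_RNUL1 al2_LVA al2_PPO al2_MUK

theorem al2_TIGK : S_TIGK :=
  p_TIGK al2_GUL1 al2_RZS1 al2_DLK al2_DMK al2_DMEA

theorem al2_CZN : S_CZN :=
  p_CZN al2_DMON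

theorem al2_DLOC : S_DLOC :=
  p_DLOC al2_DMON

theorem al2_DMEZ : S_DMEZ :=
  p_DMEZ al2_DMEA

theorem al2_DMEB : S_DMEB :=
  p_DMEB

theorem al2_FAR : S_FAR :=
  p_FAR al2_DLOC al2_DMEA al2_DMEZ al2_DMEB

theorem al2_LOWS : S_LOWS :=
  p_LOWS al2_GUL1 al2_RZS1 al2_CZN al2_FAR al2_DMEA al2_DMON

theorem al2_RARE : S_RARE :=
  p_RARE al2_FAR

theorem al2_DSIM : S_DSIM :=
  p_DSIM al2_COV

theorem al2_RTR : S_RTR :=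
  p_RTR al2_DSIM al2_DMEA al2_DMEZ al2_DMEB al2_PPO al2_MUK

theorem al2_BLK : S_BLK :=
  p_BLK

theorem al2_ZONE : S_ZONE :=
  p_ZONE al2_BLK

theorem al2_ZTWO : S_ZTWO :=
  p_ZTWO al2_BLK al2_DMON

theorem al2_GRID : S_GRID :=
  p_GRID al2_CELLS al2_DMON

theorem al2_ZRC : S_ZRC :=
  p_ZRC al2_RARE al2_RTR al2_FAR al2_ZONE al2_ZTWO al2_GRID al2_DMON

theorem al2_TAIWQ : S_TAIWQ :=
  p_TAIWQ al2_ZRC al2_RARE al2_DMON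

theorem al2_ZTHR : S_ZTHR :=
  p_ZTHR al2_COV

theorem al2_TAILQ : S_TAILQ :=
  p_TAILQ al2_TAIWQ al2_ZRC al2_ZTHR al2_RARE al2_DMON

theorem al2_COVC : S_COVC :=
  p_COVC al2_COV al2_DMON

theorem al2_ZKC : S_ZKC :=
  p_ZKC al2_COVC

theorem al2_TAILS : S_TAILS :=
  p_TAILS al2_TAILQ al2_ZKC al2_RARE al2_DMON

theorem al2_GA : S_GA :=
  p_GA al2_WALK al2_GRID

theorem al2_FEW : S_FEW :=
  p_FEW al2_GA al2_GRID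

theorem al2_RAREF : S_RAREF :=
  p_RAREF al2_FAR

theorem al2_RMANY : S_RMANY :=
  p_RMANY al2_FEW al2_RAREF al2_FAR al2_GRID

theorem al2_CGP : S_CGP :=
  p_CGP al2_COVC al2_GRID al2_BLK al2_DMON al2_CELLS

theorem al2_CGK : S_CGK :=
  p_CGK al2_CGP

theorem al2_TIGH2 : S_TIGH2 :=
  p_TIGH2 al2_RMANY al2_CGK al2_RTR al2_RARE al2_FAR al2_DMON

theorem al2_GAW : S_GAW :=
  p_GAW al2_GA al2_GRID

theorem al2_ZREP : S_ZREP :=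
  p_ZREP

theorem al2_MDL : S_MDL :=
  p_MDL al2_PPA al2_MUK al2_DMEA al2_DMON

theorem al2_REF1 : S_REF1 :=
  p_REF1 al2_GAW al2_RAREF al2_RTR al2_FAR al2_GRID al2_ZREP al2_BLK al2_MDL

theorem al2_LOWN2 : S_LOWN2 :=
  p_LOWN2 al2_REF1 al2_RARE al2_GRID al2_DMON

theorem al2_PPM : S_PPM :=
  p_PPM al2_PPO

theorem al2_SMP : S_SMP :=
  p_SMP al2_PPM al2_GRID al2_MUK

theorem al2_DETT : S_DETT :=
  p_DETT al2_RJAN al2_RDTR al2_FILL al2_DMON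

theorem al2_BASE : S_BASE :=
  p_BASE al2_SMP al2_DETT al2_DMEA al2_PPO al2_PPA al2_MUK

theorem al2_BLOW : S_BLOW :=
  p_BLOW al2_REF1 al2_BASE al2_GRID al2_DMON al2_COV

theorem al2_TAIW : S_TAIW :=
  p_TAIW al2_ZRC al2_RARE al2_DMON

theorem al2_TAIL : S_TAIL :=
  p_TAIL al2_TAIW al2_ZRC al2_ZTHR al2_RARE al2_DMON

theorem al2_REF : S_REF :=
  p_REF al2_GAW al2_RARE al2_RTR al2_FAR al2_GRID al2_ZREP al2_BLK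

theorem al2_UPN : S_UPN :=
  p_UPN al2_BASE al2_REF al2_MDL al2_GRID al2_DMON

theorem al2_BUMP : S_BUMP :=
  p_BUMP

theorem al2_CONT : S_CONT :=
  p_CONT al2_BUMP

theorem al2_BBG : S_BBG :=
  p_BBG al2_LNK al2_CONT al2_JOR al2_DMON

theorem al2_GHU1 : S_GHU1 :=
  p_GHU1 al2_TRX1 al2_BBG al2_SURK al2_LVA al2_PPO al2_PPA al2_MUK al2_DMEA al2_DMEB al2_DMON

theorem al2_HUG1 : S_HUG1 :=
  p_HUG1 al2_GHU1 al2_RZS1 al2_CZN al2_FAR al2_DMEA al2_DMEB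

theorem al2_FULL2 : S_FULL2 :=
  p_FULL2 al2_LVW al2_DAT1 al2_TH2 al2_SUB1 al2_BLOB al2_TIGK al2_LOWS al2_TAILS al2_TIGH2 al2_LOWN2 al2_BLOW al2_TAIL al2_UPN al2_HUG1

theorem al2_BLI : S_BLI :=
  p_BLI

theorem al2_LTD1 : S_LTD1 :=
  p_LTD1 al2_BLI al2_FIMG al2_LPC al2_COV

theorem al2_FRA : S_FRA :=
  p_FRA al2_COVR al2_FILL al2_EIL

theorem al2_FRC1 : S_FRC1 :=
  p_FRC1 al2_LAYY al2_FRA al2_FRB al2_COVA1 al2_JOR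

theorem al2_BLM : S_BLM :=
  p_BLM

theorem al2_LT1 : S_LT1 :=
  p_LT1 al2_DAT1 al2_LTD1 al2_FRC1 al2_BLM al2_IMS al2_RMT al2_JOR al2_LVB al2_PPO al2_MUK

theorem al2_BLC : S_BLC :=
  p_BLC al2_BLM al2_PPO al2_MUK

theorem al2_PEL : S_PEL :=
  p_PEL al2_PEIA al2_GAIN al2_BLM al2_BLC al2_BUMP al2_MUK

theorem al2_LOWT1 : S_LOWT1 :=
  p_LOWT1 al2_TRF al2_BAS1 al2_FRC1 al2_LOWX1 al2_JOR al2_PPO al2_MUK

theorem al2_LEFT2 : S_LEFT2 :=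
  p_LEFT2 al2_LT1 al2_PEL al2_LOWT1 al2_BLM al2_PPA al2_MUK

theorem al2_UPB1 : S_UPB1 :=
  p_UPB1 al2_TRFO al2_TREE al2_COV

theorem al2_LIM2 : S_LIM2 :=
  p_LIM2 al2_UPB1

theorem al2_EXP : S_EXP :=
  p_EXP

theorem al2_RIGHT2 : S_RIGHT2 :=
  p_RIGHT2 al2_REF al2_BASE al2_MDL al2_EXP al2_GRID al2_DMON al2_COV

theorem al2_STA : S_STA :=
  p_STA al2_FEW al2_RARE al2_RTR al2_FAR al2_GRID

theorem al2_ZSM : S_ZSM :=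
  p_ZSM al2_RTR al2_MDL al2_FAR al2_DLOC al2_BLK al2_DMEA al2_PPO al2_PPA al2_MUK

theorem al2_ZFIV : S_ZFIV :=
  p_ZFIV al2_DETT al2_ZREP al2_GRID al2_COV

theorem al2_GONE : S_GONE :=
  p_GONE al2_ZSM al2_SMP al2_ZFIV al2_GRID al2_PPO al2_MUK

theorem al2_STB : S_STB :=
  p_STB al2_GONE al2_FEW al2_MDL al2_GRID al2_JOINT al2_ENUM al2_PPO al2_MUK

theorem al2_SEL : S_SEL :=
  p_SEL al2_DMON al2_GRID al2_BLK

theorem al2_ZGAI : S_ZGAI :=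
  p_ZGAI al2_DMON

theorem al2_STD : S_STD :=
  p_STD al2_SEL al2_ZGAI al2_DLOC al2_DMON al2_DMEA al2_GRID al2_ENUM

theorem al2_CHEB : S_CHEB :=
  p_CHEB

theorem al2_LABEL : S_LABEL :=
  p_LABEL al2_CHEB al2_PPF al2_PPO

theorem al2_STEP : S_STEP :=
  p_STEP al2_STA al2_STB al2_STD al2_REF al2_LABEL al2_MDL al2_PPO al2_MUK al2_DMEA al2_DMON

theorem al2_STRICT2 : S_STRICT2 :=
  p_STRICT2 al2_STEP al2_MDL al2_EXP al2_DMON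

theorem al2_FIN2 : S_FIN2 :=
  p_FIN2 al2_SUBY1 al2_UPG1 al2_UCS al2_FULL2 al2_LEFT2 al2_LIM2 al2_RIGHT2 al2_STRICT2

theorem al2_MAIN2 : S_MAIN2 :=
  p_MAIN2 al2_FIN2


end Pool.Agent.P.MP_d66c6d_pr
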