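import Pool.Agent.P.MP_d66c6d_pr.Z.Par
import Pool.Agent.P.MP_d66c6d_pr.J.Defs

/-! From the intensity to the parameter `κ`, without the clause that the loops are simple. -/

namespace Pool.Agent.P.MP_d66c6d_pr

open MeasureTheory ProbabilityTheory Set Metric Filter Topology
open scoped ENNReal

/-- The three clauses in terms of `κ` from the three clauses in terms of the intensity. -/
theorem of_levels0 {ν : Measure Br}
    (h : ∀ Θ : ℝ → ℝ, (∀ c ∈ Ioo (0 : ℝ) (1 / 2), Lvl0 ν c (Θ c)) →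
      ContinuousOn Θ (Ioo 0 (1 / 2)) ∧ StrictMonoOn Θ (Ioo 0 (1 / 2)) ∧
        Tendsto Θ (𝓝[>] 0) (𝓝 1))
    (Ω : ℝ → Type) [∀ κ, MeasurableSpace (Ω κ)]
    [∀ κ, StandardBorelSpace (Ω κ)] (P : ∀ κ, Measure (Ω κ)) (Γ : ∀ κ, Ω κ → Set (Set ℂ))
    (θ : ℝ → ℝ) (hΓ : ∀ κ ∈ Ioo (8 / 3 : ℝ) 4, IsCLE0 ν κ (P κ) (Γ κ))
    (hθ : ∀ κ ∈ Ioo (8 / 3 : ℝ) 4, IsDistExp (P κ) (fun ω => firstCarpet (Γ κ ω)) (θ κ)) :
    ContinuousOn θ (Ioo (8 / 3) 4) ∧ StrictMonoOn θ (Ioo (8 / 3) 4) ∧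
      Tendsto θ (𝓝[>] (8 / 3)) (𝓝 1) := by
  choose! k hk hk' using cc_surj
  obtain ⟨h1, h2, h3⟩ := h (fun c => θ (k c)) fun c hc =>
    ⟨Ω (k c), inferInstance, inferInstance, P (k c), Γ (k c), k c,
      congrArg ENNReal.ofReal (hk' c hc), hΓ _ (hk c hc), hθ _ (hk c hc)⟩
  have e : ∀ κ ∈ Ioo (8 / 3 : ℝ) 4, θ κ = θ (k (cc κ)) := fun κ hκ => by
    rw [cc_strictMono.injOn (Ioo_subset_Icc_self (hk _ (cc_maps hκ))) (Ioo_subset_Icc_self hκ)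
      (hk' _ (cc_maps hκ))]
  have hm : Ioo (8 / 3 : ℝ) 4 ∈ 𝓝[>] (8 / 3 : ℝ) := Ioo_mem_nhdsGT (by norm_num)
  refine ⟨(h1.comp (cc_cont.mono Ioo_subset_Icc_self) cc_maps).congr e, fun x hx y hy hxy => ?_,
    Tendsto.congr' (mem_of_superset hm fun κ hκ => (e κ hκ).symm) (h3.comp ?_)⟩
  · rw [e x hx, e y hy]
    exact h2 (cc_maps hx) (cc_maps hy)
      (cc_strictMono (Ioo_subset_Icc_self hx) (Ioo_subset_Icc_self hy) hxy)
  · refine tendsto_nhdsWithin_iff.2 ⟨?_, mem_of_superset hm fun κ hκ => (cc_maps hκ).1⟩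
    have := (cc_cont (8 / 3) ⟨le_rfl, by norm_num⟩).tendsto
    rw [cc_left] at this
    exact this.mono_left (nhdsWithin_le_of_mem (mem_of_superset hm Ioo_subset_Icc_self))

end Pool.Agent.P.MP_d66c6d_pr
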